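import Pool.Agent.H64.KB.DetEvent

/-!
# Standard complex Gaussian vectors: covariance and fourth moments (bridge for V4)
-/

namespace Pool.H64.KB

open MeasureTheory Finset ProbabilityTheory Matrix Polynomial
open scoped ComplexOrder

/-- The moments used of the standard complex Gaussian measure on `ℂ`. -/
structure StdC (γ : Measure ℂ) : Prop where
  mom : Mom γ (fun z => z)
  one : ∫ z, z ∂γ = 0
  two : ∫ z, z * star z ∂γ = 1
  four : ∫ z, (z * star z) * (z * star z) ∂γ = 2

section Main

set_option linter.unusedSectionVars false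

variable {γ : Measure ℂ} [IsProbabilityMeasure γ] {ι : Type*} [Fintype ι] [DecidableEq ι]

theorem StdC.one' (h : StdC γ) : ∫ z, star z ∂γ = 0 := by
  have h1 : ∫ z, (starRingEnd ℂ) z ∂γ = (starRingEnd ℂ) (∫ z, z ∂γ) := integral_conj
  rw [h.one, map_zero] at h1
  exact h1

/-- `E conj (x_i) x_j = δ_ij`. -/
theorem integral_conj_mul (h : StdC γ) (i j : ι) :
    ∫ x, star (x i) * x j ∂(Measure.pi (fun _ : ι => γ)) = if i = j then 1 else 0 := by
  by_cases hij : i = j
  · subst hij
    rw [if_pos rfl, ← h.two]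
    have h1 : ∀ x : ι → ℂ, star (x i) * x i = (fun z : ℂ => z * star z) (x i) := by
      intro x; simp only; ring
    simp_rw [h1]
    exact integral_eval γ (h.mom.mul h.mom.star).1 i
  · rw [if_neg hij]
    have h1 := integral_mul_outside (μ := γ) (g := fun z => star z) h.mom.star.1 (I := {j})
      (t := i) (by simpa using hij) (h := fun x : ι → ℂ => x j) (measurable_pi_apply j)
      (fun x y hxy => hxy j (Finset.mem_singleton_self j))
    rw [h1, h.one', zero_mul]

/-- `E |x|² conj (x_i) x_j = (n + 1) δ_ij`. -/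
theorem integral_nsq_conj_mul (h : StdC γ) (i j : ι) :
    ∫ x, (∑ l, x l * star (x l)) * (star (x i) * x j) ∂(Measure.pi (fun _ : ι => γ)) =
      if i = j then (Fintype.card ι + 1 : ℂ) else 0 := by
  have hm : ∀ l : ι, Mom (Measure.pi (fun _ : ι => γ)) (fun x : ι → ℂ => x l) :=
    fun l => h.mom.eval γ l
  have hint : ∀ l, Integrable (fun x : ι → ℂ => (x l * star (x l)) * (star (x i) * x j))
      (Measure.pi (fun _ : ι => γ)) := fun l =>
    (((hm l).mul (hm l).star).mul ((hm i).star.mul (hm j))).integrable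
  simp_rw [Finset.sum_mul]
  rw [integral_finsetSum _ (fun l _ => hint l)]
  by_cases hij : i = j
  · subst hij
    rw [if_pos rfl]
    have h1 : ∀ l, ∫ x, (x l * star (x l)) * (star (x i) * x i) ∂(Measure.pi (fun _ : ι => γ)) =
        if l = i then 2 else 1 := by
      intro l
      by_cases hl : l = i
      · subst hl
        rw [if_pos rfl, ← h.four]
        have h2 : ∀ x : ι → ℂ, (x l * star (x l)) * (star (x l) * x l) =
            (fun z : ℂ => (z * star z) * (z * star z)) (x l) := by
          intro x; simp only; ring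
        simp_rw [h2]
        exact integral_eval γ ((h.mom.mul h.mom.star).mul (h.mom.mul h.mom.star)).1 l
      · rw [if_neg hl]
        have h3 := integral_mul_outside (μ := γ) (g := fun z => z * star z)
          (h.mom.mul h.mom.star).1 (I := {i}) (t := l) (by simpa using hl)
          (h := fun x : ι → ℂ => star (x i) * x i) ((hm i).star.mul (hm i)).1
          (fun x y hxy => by rw [hxy i (Finset.mem_singleton_self i)])
        rw [h3, h.two, integral_conj_mul h i i, if_pos rfl, one_mul]
    simp_rw [h1]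
    rw [Finset.sum_ite, Finset.filter_eq' univ i, if_pos (mem_univ i), Finset.sum_const,
      Finset.sum_const, Finset.filter_ne' univ i, Finset.card_erase_of_mem (mem_univ i),
      Finset.card_univ]
    have hc : 1 ≤ Fintype.card ι := Fintype.card_pos_iff.2 ⟨i⟩
    simp only [Finset.card_singleton, one_smul, nsmul_eq_mul, mul_one]
    rw [Nat.cast_sub hc]
    push_cast; ring
  · rw [if_neg hij]
    apply Finset.sum_eq_zero
    intro l _
    by_cases hlj : l = j
    · -- integrate over `x i`
      subst hlj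
      have h3 := integral_mul_outside (μ := γ) (g := fun z => star z) h.mom.star.1
        (I := {l}) (t := i) (by simpa using hij)
        (h := fun x : ι → ℂ => (x l * star (x l)) * x l) (((hm l).mul (hm l).star).mul (hm l)).1
        (fun x y hxy => by rw [hxy l (Finset.mem_singleton_self l)])
      have h4 : ∀ x : ι → ℂ, (x l * star (x l)) * (star (x i) * x l) =
          (fun z => star z) (x i) * (fun x : ι → ℂ => (x l * star (x l)) * x l) x := by
        intro x; simp only; ring
      simp_rw [h4]
      rw [h3, h.one', zero_mul]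
    · -- integrate over `x j`
      have h3 := integral_mul_outside (μ := γ) (g := fun z => z) h.mom.1
        (I := {l, i}) (t := j) (by
          simp only [Finset.mem_insert, Finset.mem_singleton, not_or]
          exact ⟨fun h => hlj h.symm, fun h => hij h.symm⟩)
        (h := fun x : ι → ℂ => (x l * star (x l)) * star (x i))
        (((hm l).mul (hm l).star).mul (hm i).star).1
        (fun x y hxy => by
          rw [hxy l (by simp), hxy i (by simp)])
      have h4 : ∀ x : ι → ℂ, (x l * star (x l)) * (star (x i) * x j) =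
          (fun z => z) (x j) * (fun x : ι → ℂ => (x l * star (x l)) * star (x i)) x := by
        intro x; simp only; ring
      simp_rw [h4]
      rw [h3, h.one, zero_mul]

/-- The vector `conj (x^T S)`. -/
def fS (S : Matrix ι ι ℂ) (x : ι → ℂ) : ι → ℂ := star (x ᵥ* S)

theorem fS_apply (S : Matrix ι ι ℂ) (x : ι → ℂ) (a : ι) :
    fS S x a = ∑ i, star (S i a) * star (x i) := by
  simp only [fS, Pi.star_apply, Matrix.vecMul, dotProduct, star_sum, star_mul']
  apply Finset.sum_congr rfl
  intro i _
  ring

theorem mom_fS (h : StdC γ) (S : Matrix ι ι ℂ) (a : ι) :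
    Mom (Measure.pi (fun _ : ι => γ)) (fun x => fS S x a) := by
  simp_rw [fS_apply]
  apply Mom.sum
  intro i _
  exact (Mom.const _).mul (h.mom.eval γ i).star

theorem fS_mul_star (S : Matrix ι ι ℂ) (x : ι → ℂ) (a c : ι) :
    fS S x a * star (fS S x c) = ∑ i, ∑ j, (star (S i a) * S j c) * (star (x i) * x j) := by
  rw [fS_apply, fS_apply, star_sum, Finset.sum_mul_sum]
  apply Finset.sum_congr rfl
  intro i _
  apply Finset.sum_congr rfl
  intro j _
  rw [star_mul', star_star, star_star]
  ring

theorem sum_ite_star (S : Matrix ι ι ℂ) (a c : ι) (z : ℂ) :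
    ∑ i, ∑ j, (star (S i a) * S j c) * (if i = j then z else 0) = z * (Sᴴ * S) a c := by
  rw [Matrix.mul_apply, Finset.mul_sum]
  apply Finset.sum_congr rfl
  intro i _
  rw [Finset.sum_eq_single i]
  · rw [if_pos rfl, Matrix.conjTranspose_apply]; ring
  · intro j _ hj
    rw [if_neg (fun h => hj h.symm), mul_zero]
  · intro h; exact absurd (mem_univ i) h

/-- `conj (x^T S)` has covariance `S^* S`. -/
theorem vec_fS (h : StdC γ) (S : Matrix ι ι ℂ) :
    Vec (Measure.pi (fun _ : ι => γ)) (fS S) (Sᴴ * S) := by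
  refine ⟨mom_fS h S, ?_⟩
  intro a c
  simp_rw [fS_mul_star]
  have hm : ∀ l : ι, Mom (Measure.pi (fun _ : ι => γ)) (fun x : ι → ℂ => x l) :=
    fun l => h.mom.eval γ l
  have hint : ∀ i j, Integrable (fun x : ι → ℂ => (star (S i a) * S j c) * (star (x i) * x j))
      (Measure.pi (fun _ : ι => γ)) := fun i j =>
    ((hm i).star.mul (hm j)).integrable.const_mul _
  rw [integral_finsetSum _ (fun i _ => integrable_finsetSum _ (fun j _ => hint i j))]
  have h1 : ∀ i, ∫ x, ∑ j, (star (S i a) * S j c) * (star (x i) * x j)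
      ∂(Measure.pi (fun _ : ι => γ)) = ∑ j, (star (S i a) * S j c) * (if i = j then 1 else 0) := by
    intro i
    rw [integral_finsetSum _ (fun j _ => hint i j)]
    apply Finset.sum_congr rfl
    intro j _
    rw [integral_const_mul, integral_conj_mul h]
  simp_rw [h1]
  rw [sum_ite_star, one_mul]

/-- The weight `|x|²`. -/
theorem mom_nsq (h : StdC γ) :
    Mom (Measure.pi (fun _ : ι => γ)) (fun x : ι → ℂ => ∑ l, x l * star (x l)) :=
  Mom.sum _ fun l _ => (h.mom.eval γ l).mul (h.mom.eval γ l).star

theorem integral_nsq (h : StdC γ) :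
    ∫ x, ∑ l, x l * star (x l) ∂(Measure.pi (fun _ : ι => γ)) = Fintype.card ι := by
  rw [integral_finsetSum _
    (fun l _ => ((h.mom.eval γ l).mul (h.mom.eval γ l).star).integrable)]
  have h1 : ∀ l : ι, ∫ x : ι → ℂ, x l * star (x l) ∂(Measure.pi (fun _ : ι => γ)) = 1 := by
    intro l
    rw [← h.two]
    exact integral_eval γ (h.mom.mul h.mom.star).1 l
  simp_rw [h1]
  simp

theorem integral_nsq_fS (h : StdC γ) (S : Matrix ι ι ℂ) (a c : ι) :
    ∫ x, (∑ l, x l * star (x l)) * (fS S x a * star (fS S x c))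
      ∂(Measure.pi (fun _ : ι => γ)) = (Fintype.card ι + 1 : ℂ) * (Sᴴ * S) a c := by
  have h0 : ∀ x : ι → ℂ, (∑ l, x l * star (x l)) * (fS S x a * star (fS S x c)) =
      ∑ i, ∑ j, (star (S i a) * S j c) * ((∑ l, x l * star (x l)) * (star (x i) * x j)) := by
    intro x
    rw [fS_mul_star, Finset.mul_sum]
    apply Finset.sum_congr rfl
    intro i _
    rw [Finset.mul_sum]
    apply Finset.sum_congr rfl
    intro j _
    ring
  simp_rw [h0]
  have hm : ∀ l : ι, Mom (Measure.pi (fun _ : ι => γ)) (fun x : ι → ℂ => x l) :=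
    fun l => h.mom.eval γ l
  have hint : ∀ i j, Integrable (fun x : ι → ℂ =>
      (star (S i a) * S j c) * ((∑ l, x l * star (x l)) * (star (x i) * x j)))
      (Measure.pi (fun _ : ι => γ)) := fun i j =>
    ((mom_nsq h).mul ((hm i).star.mul (hm j))).integrable.const_mul _
  rw [integral_finsetSum _ (fun i _ => integrable_finsetSum _ (fun j _ => hint i j))]
  have h1 : ∀ i, ∫ x, ∑ j, (star (S i a) * S j c) *
      ((∑ l, x l * star (x l)) * (star (x i) * x j)) ∂(Measure.pi (fun _ : ι => γ)) =
      ∑ j, (star (S i a) * S j c) * (if i = j then (Fintype.card ι + 1 : ℂ) else 0) := by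
    intro i
    rw [integral_finsetSum _ (fun j _ => hint i j)]
    apply Finset.sum_congr rfl
    intro j _
    rw [integral_const_mul, integral_nsq_conj_mul h]
  simp_rw [h1]
  rw [sum_ite_star]

/-- `S^* (conj x x^T) S = f f^*` with `f = conj (x^T S)`. -/
theorem rk_fS (S : Matrix ι ι ℂ) (x : ι → ℂ) :
    Sᴴ * vecMulVec (star x) x * S = rk (fS S) x := by
  ext a c
  rw [rk, vecMulVec_apply, Pi.star_apply, fS_mul_star, Matrix.mul_apply, Finset.sum_comm]
  apply Finset.sum_congr rfl
  intro j _
  rw [Matrix.mul_apply, Finset.sum_mul]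
  apply Finset.sum_congr rfl
  intro i _
  rw [Matrix.conjTranspose_apply, vecMulVec_apply, Pi.star_apply]
  ring

theorem sum_rk_fS {κ : Type*} [Fintype κ] (S : Matrix ι ι ℂ) (w : κ → ℂ) (ζ : κ → ι → ℂ) :
    Sᴴ * (∑ s, w s • vecMulVec (star (ζ s)) (ζ s)) * S = ∑ s, w s • rk (fS S) (ζ s) := by
  rw [Matrix.mul_sum, Matrix.sum_mul]
  apply Finset.sum_congr rfl
  intro s _
  rw [Matrix.mul_smul, Matrix.smul_mul, rk_fS]

end Main

section Coefficients

variable {ι : Type*} [Fintype ι] [DecidableEq ι]

/-- `det (M₀ + z b)` is the value of the polynomial. -/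
theorem eval_pm (M₀ b : Matrix ι ι ℂ) (z : ℂ) : (det (pm M₀ b)).eval z = det (M₀ + z • b) := by
  have h1 := RingHom.map_det (Polynomial.evalRingHom z) (pm M₀ b)
  rw [Polynomial.coe_evalRingHom] at h1
  rw [h1]
  congr 1
  ext a c
  simp [pm]
  ring

/-- If `∫ det (M₀ + y b)` is a polynomial in the real variable `y` then the integrals of the
coefficients are its coefficients. -/
theorem integral_coeff_pm {Y : Type*} [MeasurableSpace Y] (μ : Measure Y)
    (M₀ b : Y → Matrix ι ι ℂ)
    (hint : ∀ i, Integrable (fun x => ((det (pm (M₀ x) (b x))).coeff i).re) μ)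
    (Q : ℝ[X]) (hQ : ∀ y : ℝ, ∫ x, (det (M₀ x + (y : ℂ) • b x)).re ∂μ = Q.eval y) (i : ℕ) :
    ∫ x, ((det (pm (M₀ x) (b x))).coeff i).re ∂μ = Q.coeff i := by
  set N := Fintype.card ι with hN
  set P : ℝ[X] := ∑ i ∈ range (N + 1),
    C (∫ x, ((det (pm (M₀ x) (b x))).coeff i).re ∂μ) * X ^ i with hP
  have h1 : ∀ (x : Y) (y : ℝ), (det (M₀ x + (y : ℂ) • b x)).re =
      ∑ i ∈ range (N + 1), ((det (pm (M₀ x) (b x))).coeff i).re * y ^ i := by
    intro x y
    have hd : (det (pm (M₀ x) (b x))).natDegree < N + 1 :=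
      Nat.lt_succ_of_le (natDegree_det_X_add_C_le (b x) (M₀ x))
    rw [← eval_pm, Polynomial.eval_eq_sum_range' hd, Complex.re_sum]
    apply Finset.sum_congr rfl
    intro i _
    rw [← Complex.ofReal_pow, Complex.re_mul_ofReal]
  have h2 : ∀ y : ℝ, P.eval y = Q.eval y := by
    intro y
    rw [← hQ y]
    simp_rw [h1]
    rw [integral_finsetSum _ (fun i _ => (hint i).mul_const _)]
    rw [hP, Polynomial.eval_finsetSum]
    apply Finset.sum_congr rfl
    intro i _
    rw [integral_mul_const]
    simp
  have h3 : P = Q := Polynomial.funext h2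
  rw [← h3, hP, Polynomial.finsetSum_coeff]
  by_cases hi : i ≤ N
  · rw [Finset.sum_eq_single i]
    · simp
    · intro j _ hj
      rw [Polynomial.coeff_C_mul, Polynomial.coeff_X_pow, if_neg (fun h => hj h.symm), mul_zero]
    · intro h; exact absurd (Finset.mem_range.2 (Nat.lt_succ_of_le hi)) h
  · rw [not_le] at hi
    have h4 : ∀ x, ((det (pm (M₀ x) (b x))).coeff i).re = 0 := by
      intro x; rw [coeff_pm_eq_zero _ _ hi]; simp
    simp_rw [h4, integral_zero]
    symm
    apply Finset.sum_eq_zero
    intro j hj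
    rw [Polynomial.coeff_C_mul, Polynomial.coeff_X_pow, if_neg, mul_zero]
    intro h
    have := Finset.mem_range.1 hj
    omega

end Coefficients

end Pool.H64.KB
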