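import Mathlib

/-!
# The index cut of a hermitian determinant (module V1 of THEOREM K')

`idx H` is `det H` if the hermitian matrix `H` has at most one negative eigenvalue and `0`
otherwise.  Two facts are used: `idx H = det H` is monotone on nonnegative matrices, and always
`idx (P - Q) ≥ - |det (P - Q)| ≥ - det (P + Q)` for `P, Q ≥ 0`.
-/

namespace Pool.H64.KB

open Matrix Finset
open scoped ComplexOrder

variable {ι : Type*} [Fintype ι] [DecidableEq ι]

/-- `det H` if the hermitian matrix `H` has at most one negative eigenvalue, `0` otherwise. -/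
noncomputable def idx (H : Matrix ι ι ℂ) : ℝ :=
  open Classical in
  if h : H.IsHermitian then
    (if (univ.filter (fun i => h.eigenvalues i < 0)).card ≤ 1 then H.det.re else 0) else 0

open scoped MatrixOrder in
theorem exists_conj {Q : Matrix ι ι ℂ} (hQ : Q.PosDef) :
    ∃ B : Matrix ι ι ℂ, IsUnit B ∧ Q = Bᴴ * B := by
  have h0 : 0 ≤ Q := Matrix.nonneg_iff_posSemidef.2 hQ.posSemidef
  have hs : (CFC.sqrt Q).PosSemidef := Matrix.nonneg_iff_posSemidef.1 (CFC.sqrt_nonneg Q)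
  have hmul : CFC.sqrt Q * CFC.sqrt Q = Q := CFC.sqrt_mul_sqrt_self Q h0
  refine ⟨CFC.sqrt Q, ?_, ?_⟩
  · have hu : IsUnit Q := hQ.isUnit
    rw [← hmul] at hu
    exact isUnit_of_mul_isUnit_left hu
  · rw [hs.1.eq, hmul]

theorem norm_det_le_one {X : Matrix ι ι ℂ} (hX : X.IsHermitian) (h1 : (1 - X).PosSemidef)
    (h2 : (1 + X).PosSemidef) : ‖X.det‖ ≤ 1 := by
  rw [hX.det_eq_prod_eigenvalues, norm_prod]
  apply Finset.prod_le_one
  · intro i _; exact norm_nonneg _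
  · intro i _
    have e1 := h1.re_dotProduct_nonneg (hX.eigenvectorBasis i).ofLp
    have e2 := h2.re_dotProduct_nonneg (hX.eigenvectorBasis i).ofLp
    have e3 := hX.eigenvalues_eq i
    have e4 : (star (hX.eigenvectorBasis i).ofLp) ⬝ᵥ (hX.eigenvectorBasis i).ofLp = 1 := by
      have := (hX.eigenvectorBasis).orthonormal.1 i
      have h5 : inner ℂ (hX.eigenvectorBasis i) (hX.eigenvectorBasis i) = (1 : ℂ) := by
        rw [inner_self_eq_norm_sq_to_K, this]; simp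
      rw [EuclideanSpace.inner_eq_star_dotProduct, dotProduct_comm] at h5
      exact h5
    rw [Matrix.sub_mulVec, Matrix.one_mulVec, dotProduct_sub, e4, map_sub, ← e3] at e1
    rw [Matrix.add_mulVec, Matrix.one_mulVec, dotProduct_add, e4, map_add, ← e3] at e2
    rw [RCLike.one_re] at e1 e2
    have h6 : ‖((hX.eigenvalues i : ℝ) : ℂ)‖ = |hX.eigenvalues i| := by
      rw [Complex.norm_real, Real.norm_eq_abs]
    refine le_trans (le_of_eq h6) ?_
    rw [abs_le]; constructor <;> linarith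

theorem det_eq_zero_of_posSemidef {A : Matrix ι ι ℂ} {v : ι → ℂ} (hv : v ≠ 0)
    (h : A *ᵥ v = 0) : A.det = 0 := by
  by_contra hne
  exact hv (Matrix.eq_zero_of_mulVec_eq_zero hne h)

/-- `|det (P - Q)| ≤ det (P + Q)`. -/
theorem norm_det_sub_le {P Q : Matrix ι ι ℂ} (hP : P.PosSemidef) (hQ : Q.PosSemidef) :
    ‖(P - Q).det‖ ≤ (P + Q).det.re := by
  have hPQ : (P + Q).PosSemidef := hP.add hQ
  by_cases h0 : (P + Q).det = 0
  · -- a common kernel vector
    obtain ⟨v, hv, hker⟩ := (Matrix.exists_mulVec_eq_zero_iff).2 h0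
    have e1 : star v ⬝ᵥ ((P + Q) *ᵥ v) = 0 := by rw [hker]; simp
    rw [Matrix.add_mulVec, dotProduct_add] at e1
    have e2 := hP.dotProduct_mulVec_nonneg v
    have e3 := hQ.dotProduct_mulVec_nonneg v
    have e4 : star v ⬝ᵥ (P *ᵥ v) = 0 := by
      have := (add_eq_zero_iff_of_nonneg e2 e3).1 e1
      exact this.1
    have e5 : star v ⬝ᵥ (Q *ᵥ v) = 0 := by
      have := (add_eq_zero_iff_of_nonneg e2 e3).1 e1
      exact this.2
    have e6 : P *ᵥ v = 0 := (hP.dotProduct_mulVec_zero_iff v).1 e4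
    have e7 : Q *ᵥ v = 0 := (hQ.dotProduct_mulVec_zero_iff v).1 e5
    have e8 : (P - Q) *ᵥ v = 0 := by rw [Matrix.sub_mulVec, e6, e7, sub_zero]
    rw [det_eq_zero_of_posSemidef hv e8, h0]
    simp
  · have hpd : (P + Q).PosDef := (hPQ.posDef_iff_det_ne_zero).2 h0
    obtain ⟨B, hB, hBB⟩ := exists_conj hpd
    have hBd : IsUnit B.det := (Matrix.isUnit_iff_isUnit_det B).1 hB
    set C : Matrix ι ι ℂ := B⁻¹ with hC
    have hBC : B * C = 1 := Matrix.mul_nonsing_inv B hBd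
    have hCB : C * B = 1 := Matrix.nonsing_inv_mul B hBd
    have hBCs : Cᴴ * Bᴴ = 1 := by rw [← Matrix.conjTranspose_mul, hBC, Matrix.conjTranspose_one]
    have hCBs : Bᴴ * Cᴴ = 1 := by rw [← Matrix.conjTranspose_mul, hCB, Matrix.conjTranspose_one]
    set X : Matrix ι ι ℂ := Cᴴ * (P - Q) * C with hX
    have hone : Cᴴ * (P + Q) * C = 1 := by
      rw [hBB]
      calc Cᴴ * (Bᴴ * B) * C = (Cᴴ * Bᴴ) * (B * C) := by simp only [Matrix.mul_assoc]
        _ = 1 := by rw [hBCs, hBC, Matrix.one_mul]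
    have hXh : X.IsHermitian := by
      rw [Matrix.IsHermitian, hX, Matrix.conjTranspose_mul, Matrix.conjTranspose_mul,
        Matrix.conjTranspose_conjTranspose, (hP.1.sub hQ.1).eq, Matrix.mul_assoc]
    have h1 : (1 - X).PosSemidef := by
      have e : 1 - X = Cᴴ * ((2 : ℂ) • Q) * C := by
        rw [← hone, hX, ← Matrix.sub_mul, ← Matrix.mul_sub]
        congr 2
        rw [two_smul]; abel
      rw [e]
      exact (hQ.smul (by norm_num : (0 : ℂ) ≤ 2)).conjTranspose_mul_mul_same C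
    have h2 : (1 + X).PosSemidef := by
      have e : 1 + X = Cᴴ * ((2 : ℂ) • P) * C := by
        rw [← hone, hX, ← Matrix.add_mul, ← Matrix.mul_add]
        congr 2
        rw [two_smul]; abel
      rw [e]
      exact (hP.smul (by norm_num : (0 : ℂ) ≤ 2)).conjTranspose_mul_mul_same C
    have h3 := norm_det_le_one hXh h1 h2
    have h4 : P - Q = Bᴴ * X * B := by
      rw [hX]
      calc P - Q = (Bᴴ * Cᴴ) * (P - Q) * (C * B) := by rw [hCBs, hCB, Matrix.one_mul,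
            Matrix.mul_one]
        _ = _ := by simp only [Matrix.mul_assoc]
    have h5 : ‖(P - Q).det‖ = ‖B.det‖ ^ 2 * ‖X.det‖ := by
      rw [h4, Matrix.det_mul, Matrix.det_mul, Matrix.det_conjTranspose, norm_mul, norm_mul,
        norm_star]; ring
    have h6 : (P + Q).det.re = ‖B.det‖ ^ 2 := by
      rw [hBB, Matrix.det_mul, Matrix.det_conjTranspose]
      have : star B.det * B.det = ((‖B.det‖ ^ 2 : ℝ) : ℂ) := by
        rw [← Complex.normSq_eq_norm_sq, Complex.normSq_eq_conj_mul_self]; rfl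
      rw [this, Complex.ofReal_re]
    rw [h5, h6]
    calc ‖B.det‖ ^ 2 * ‖X.det‖ ≤ ‖B.det‖ ^ 2 * 1 := by
          apply mul_le_mul_of_nonneg_left h3 (by positivity)
      _ = _ := mul_one _

/-- The determinant is monotone on nonnegative matrices. -/
theorem det_mono {A B : Matrix ι ι ℂ} (hA : A.PosSemidef) (hAB : (B - A).PosSemidef) :
    A.det.re ≤ B.det.re := by
  have hB : B.PosSemidef := by
    have := hA.add hAB
    simpa using this
  have hP : ((1 / 2 : ℂ) • (A + B)).PosSemidef :=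
    (hA.add hB).smul (by norm_num [Complex.le_def])
  have hQ : ((1 / 2 : ℂ) • (B - A)).PosSemidef :=
    hAB.smul (by norm_num [Complex.le_def])
  have h := norm_det_sub_le hP hQ
  have e1 : (1 / 2 : ℂ) • (A + B) - (1 / 2 : ℂ) • (B - A) = A := by
    rw [← smul_sub]
    have : A + B - (B - A) = (2 : ℂ) • A := by rw [two_smul]; abel
    rw [this, smul_smul]; norm_num
  have e2 : (1 / 2 : ℂ) • (A + B) + (1 / 2 : ℂ) • (B - A) = B := by
    rw [← smul_add]
    have : A + B + (B - A) = (2 : ℂ) • B := by rw [two_smul]; abel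
    rw [this, smul_smul]; norm_num
  rw [e1, e2] at h
  exact le_trans (Complex.re_le_norm _) h

theorem idx_ge_neg_norm (H : Matrix ι ι ℂ) : -‖H.det‖ ≤ idx H := by
  classical
  unfold idx
  have h1 : -‖H.det‖ ≤ H.det.re := by
    have := Complex.abs_re_le_norm H.det
    linarith [(abs_le.1 this).1]
  have h2 : -‖H.det‖ ≤ 0 := by linarith [norm_nonneg H.det]
  split_ifs <;> assumption

theorem idx_eq_of_posSemidef {H : Matrix ι ι ℂ} (hH : H.PosSemidef) : idx H = H.det.re := by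
  classical
  unfold idx
  rw [dif_pos hH.1, if_pos]
  have : univ.filter (fun i => hH.1.eigenvalues i < 0) = ∅ := by
    rw [Finset.filter_eq_empty_iff]
    intro i _
    exact not_lt.2 (hH.eigenvalues_nonneg i)
  rw [this]; simp

/-- `W - τ ≥ W / 2` gives `det (W - τ) ≥ 2 ^ (-n) det W`. -/
theorem det_sub_smul_ge {W : Matrix ι ι ℂ} {τ : ℝ} (hτ : 0 ≤ τ)
    (hW : (W - ((2 * τ : ℝ) : ℂ) • (1 : Matrix ι ι ℂ)).PosSemidef) :
    (1 / 2) ^ (Fintype.card ι) * W.det.re ≤ (W - (τ : ℂ) • (1 : Matrix ι ι ℂ)).det.re := by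
  have hW0 : W.PosSemidef := by
    have h1 : (((2 * τ : ℝ) : ℂ) • (1 : Matrix ι ι ℂ)).PosSemidef := by
      apply Matrix.PosSemidef.one.smul
      rw [Complex.zero_le_real]; positivity
    have := hW.add h1
    simpa using this
  have h2 : ((1 / 2 : ℂ) • W).PosSemidef := hW0.smul (by norm_num [Complex.le_def])
  have h3 : ((W - (τ : ℂ) • (1 : Matrix ι ι ℂ)) - (1 / 2 : ℂ) • W).PosSemidef := by
    have e : (W - (τ : ℂ) • (1 : Matrix ι ι ℂ)) - (1 / 2 : ℂ) • W =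
        (1 / 2 : ℂ) • (W - ((2 * τ : ℝ) : ℂ) • (1 : Matrix ι ι ℂ)) := by
      rw [smul_sub, smul_smul]
      push_cast
      have : (1 / 2 : ℂ) * (2 * (τ : ℂ)) = τ := by ring
      rw [this]
      have h5 : W = (1 / 2 : ℂ) • W + (1 / 2 : ℂ) • W := by
        rw [← add_smul]; norm_num
      nth_rewrite 1 [h5]
      abel
    rw [e]
    exact hW.smul (by norm_num [Complex.le_def])
  have h4 := det_mono h2 h3
  rw [Matrix.det_smul] at h4
  have h5 : ((1 / 2 : ℂ) ^ (Fintype.card ι) * W.det).re = (1 / 2) ^ (Fintype.card ι) * W.det.re := by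
    have : ((1 / 2 : ℂ) ^ (Fintype.card ι)) = (((1 / 2 : ℝ) ^ (Fintype.card ι) : ℝ) : ℂ) := by
      push_cast; rfl
    rw [this, Complex.re_ofReal_mul]
  rw [h5] at h4
  exact h4

/-- First lower bound: if `W ≥ 2 τ` then the form `S^* (W - τ) S + R` is nonnegative and its
determinant is at least `2 ^ (-n) |det S| ^ 2 det W`. -/
theorem idx_form_ge {W S R : Matrix ι ι ℂ} {τ : ℝ} (hτ : 0 ≤ τ)
    (hW : (W - ((2 * τ : ℝ) : ℂ) • (1 : Matrix ι ι ℂ)).PosSemidef) (hR : R.PosSemidef) :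
    (1 / 2) ^ (Fintype.card ι) * (‖S.det‖ ^ 2 * W.det.re) ≤
      idx (Sᴴ * (W - (τ : ℂ) • (1 : Matrix ι ι ℂ)) * S + R) := by
  have h1 : (W - (τ : ℂ) • (1 : Matrix ι ι ℂ)).PosSemidef := by
    have e : W - (τ : ℂ) • (1 : Matrix ι ι ℂ) = (W - ((2 * τ : ℝ) : ℂ) • (1 : Matrix ι ι ℂ)) +
        (τ : ℂ) • (1 : Matrix ι ι ℂ) := by
      push_cast
      rw [two_mul, add_smul]; abel
    rw [e]
    apply hW.add
    apply Matrix.PosSemidef.one.smul
    rw [Complex.zero_le_real]; exact hτ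
  have h2 : (Sᴴ * (W - (τ : ℂ) • (1 : Matrix ι ι ℂ)) * S).PosSemidef :=
    h1.conjTranspose_mul_mul_same S
  rw [idx_eq_of_posSemidef (h2.add hR)]
  have h3 : (Sᴴ * (W - (τ : ℂ) • (1 : Matrix ι ι ℂ)) * S).det.re ≤
      (Sᴴ * (W - (τ : ℂ) • (1 : Matrix ι ι ℂ)) * S + R).det.re := by
    apply det_mono h2
    simpa using hR
  have h4 : (Sᴴ * (W - (τ : ℂ) • (1 : Matrix ι ι ℂ)) * S).det.re =
      ‖S.det‖ ^ 2 * (W - (τ : ℂ) • (1 : Matrix ι ι ℂ)).det.re := by
    rw [Matrix.det_mul, Matrix.det_mul, Matrix.det_conjTranspose]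
    have : star S.det * (W - (τ : ℂ) • (1 : Matrix ι ι ℂ)).det * S.det =
        ((‖S.det‖ ^ 2 : ℝ) : ℂ) * (W - (τ : ℂ) • (1 : Matrix ι ι ℂ)).det := by
      rw [← Complex.normSq_eq_norm_sq, Complex.normSq_eq_conj_mul_self]
      change (starRingEnd ℂ) S.det * _ * _ = _
      ring
    rw [this, Complex.re_ofReal_mul]
  have h5 := det_sub_smul_ge hτ hW
  calc (1 / 2) ^ (Fintype.card ι) * (‖S.det‖ ^ 2 * W.det.re)
      = ‖S.det‖ ^ 2 * ((1 / 2) ^ (Fintype.card ι) * W.det.re) := by ring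
    _ ≤ ‖S.det‖ ^ 2 * (W - (τ : ℂ) • (1 : Matrix ι ι ℂ)).det.re := by
        apply mul_le_mul_of_nonneg_left h5 (by positivity)
    _ = _ := h4.symm
    _ ≤ _ := h3

/-- Second lower bound, valid always. -/
theorem idx_form_ge_neg {W S R : Matrix ι ι ℂ} {τ ρ : ℝ} (hτ : 0 ≤ τ) (hW : W.PosSemidef)
    (hR : R.PosSemidef) (hρ : ((ρ : ℂ) • (1 : Matrix ι ι ℂ) - R).PosSemidef) :
    -(Sᴴ * (W + (τ : ℂ) • (1 : Matrix ι ι ℂ)) * S + (ρ : ℂ) • (1 : Matrix ι ι ℂ)).det.re ≤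
      idx (Sᴴ * (W - (τ : ℂ) • (1 : Matrix ι ι ℂ)) * S + R) := by
  have hτ1 : ((τ : ℂ) • (1 : Matrix ι ι ℂ)).PosSemidef := by
    apply Matrix.PosSemidef.one.smul
    rw [Complex.zero_le_real]; exact hτ
  have hP : (Sᴴ * W * S + R).PosSemidef := (hW.conjTranspose_mul_mul_same S).add hR
  have hQ : (Sᴴ * ((τ : ℂ) • (1 : Matrix ι ι ℂ)) * S).PosSemidef :=
    hτ1.conjTranspose_mul_mul_same S
  have h1 := norm_det_sub_le hP hQ
  have e1 : Sᴴ * W * S + R - Sᴴ * ((τ : ℂ) • (1 : Matrix ι ι ℂ)) * S =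
      Sᴴ * (W - (τ : ℂ) • (1 : Matrix ι ι ℂ)) * S + R := by
    rw [Matrix.mul_sub, Matrix.sub_mul]; abel
  have e2 : Sᴴ * W * S + R + Sᴴ * ((τ : ℂ) • (1 : Matrix ι ι ℂ)) * S =
      Sᴴ * (W + (τ : ℂ) • (1 : Matrix ι ι ℂ)) * S + R := by
    rw [Matrix.mul_add, Matrix.add_mul]; abel
  rw [e1, e2] at h1
  have hPQ : (Sᴴ * (W + (τ : ℂ) • (1 : Matrix ι ι ℂ)) * S + R).PosSemidef := by
    rw [← e2]; exact hP.add hQ
  have h2 : (Sᴴ * (W + (τ : ℂ) • (1 : Matrix ι ι ℂ)) * S + R).det.re ≤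
      (Sᴴ * (W + (τ : ℂ) • (1 : Matrix ι ι ℂ)) * S + (ρ : ℂ) • (1 : Matrix ι ι ℂ)).det.re := by
    apply det_mono hPQ
    have : Sᴴ * (W + (τ : ℂ) • (1 : Matrix ι ι ℂ)) * S + (ρ : ℂ) • (1 : Matrix ι ι ℂ) -
        (Sᴴ * (W + (τ : ℂ) • (1 : Matrix ι ι ℂ)) * S + R) =
        (ρ : ℂ) • (1 : Matrix ι ι ℂ) - R := by abel
    rw [this]; exact hρ
  have h3 := idx_ge_neg_norm (Sᴴ * (W - (τ : ℂ) • (1 : Matrix ι ι ℂ)) * S + R)
  linarith

end Pool.H64.KB
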