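import Mathlib

/-!
# Counting monomials of weight `m` and large degree

`cnt w m p` is the number of monomials of weight `m` (variables of weights `w i`) whose ordinary
degree is at least `p`.  An exponential tilt bounds it by
`m ^ M / (M! ∏ w) * (M! e ^ M / M ^ M) * ∏ (1 - 1 / (2 w)) ⁻¹ * exp (- M p / (2 m) + o (1))`.
-/

namespace Pool.H64.KB

open Finset

/-- The number of exponent vectors of weight `m` and of degree at least `p`. -/
def cnt {ι : Type*} [Fintype ι] [DecidableEq ι] (w : ι → ℕ) (m p : ℕ) : ℕ :=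
  ((Fintype.piFinset (fun _ : ι => Finset.range (m + 1))).filter
    (fun a => (∑ i, w i * a i = m) ∧ p ≤ ∑ i, a i)).card

theorem one_sub_exp_neg_ge {c : ℝ} (hc : 0 < c) : c / (1 + c) ≤ 1 - Real.exp (-c) := by
  have h1 : 1 + c ≤ Real.exp c := by linarith [Real.add_one_le_exp c]
  have h2 : Real.exp (-c) ≤ 1 / (1 + c) := by
    rw [Real.exp_neg, ← one_div]
    exact one_div_le_one_div_of_le (by positivity) h1
  have h3 : c / (1 + c) = 1 - 1 / (1 + c) := by field_simp; ring
  rw [h3]; linarith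

theorem geom_le {c : ℝ} (hc : 0 < c) (n : ℕ) :
    ∑ j ∈ range n, Real.exp (-c * j) ≤ 1 + 1 / c := by
  have h1 : ∀ j : ℕ, Real.exp (-c * j) = Real.exp (-c) ^ j := by
    intro j; rw [← Real.exp_nat_mul]; ring_nf
  simp_rw [h1]
  have h2 := geom_sum_mul_neg (Real.exp (-c)) n
  have h3 : (∑ j ∈ range n, Real.exp (-c) ^ j) * (1 - Real.exp (-c)) ≤ 1 := by
    rw [h2]; have := Real.exp_pos (-c); have : 0 ≤ Real.exp (-c) ^ n := by positivity
    linarith
  have h4 := one_sub_exp_neg_ge hc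
  have h5 : 0 ≤ ∑ j ∈ range n, Real.exp (-c) ^ j := by positivity
  have h6 : (∑ j ∈ range n, Real.exp (-c) ^ j) * (c / (1 + c)) ≤ 1 :=
    le_trans (mul_le_mul_of_nonneg_left h4 h5) h3
  have h7 : 1 + 1 / c = 1 / (c / (1 + c)) := by field_simp; ring
  rw [h7, le_div_iff₀ (by positivity)]
  exact h6

/-- Exponential tilt with one variable of weight one eliminated. -/
theorem cnt_le {ι : Type*} [Fintype ι] [DecidableEq ι] (w : ι → ℕ) (i0 : ι) (h0 : w i0 = 1)
    (hw : ∀ i, 1 ≤ w i) (m p : ℕ) {θ s : ℝ} (hθ : 0 ≤ θ) (hs : θ < s) :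
    (cnt w m p : ℝ) ≤ Real.exp (s * m - θ * p) *
      ∏ i ∈ univ.erase i0, (1 + 1 / (s * w i - θ)) := by
  classical
  set S := (Fintype.piFinset (fun _ : ι => Finset.range (m + 1))).filter
    (fun a => (∑ i, w i * a i = m) ∧ p ≤ ∑ i, a i) with hS
  have hc : ∀ i, 0 < s * w i - θ := by
    intro i
    have h1 : (1 : ℝ) ≤ w i := by exact_mod_cast hw i
    have h2 : s * 1 ≤ s * w i := by
      apply mul_le_mul_of_nonneg_left h1; linarith
    linarith
  -- each member of `S` has tilted weight at least one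
  have key : ∀ a ∈ S, (1 : ℝ) ≤ Real.exp (s * m - θ * p) *
      ∏ i ∈ univ.erase i0, Real.exp (-(s * w i - θ) * a i) := by
    intro a ha
    rw [hS, mem_filter] at ha
    obtain ⟨-, hm, hp⟩ := ha
    rw [← Real.exp_sum, ← Real.exp_add]
    apply Real.one_le_exp
    have e1 : (m : ℝ) = ∑ i, (w i : ℝ) * a i := by rw [← hm]; push_cast; rfl
    have e2 : (p : ℝ) ≤ ∑ i, (a i : ℝ) := by exact_mod_cast hp
    have e3 : ∑ i, (w i : ℝ) * a i = a i0 + ∑ i ∈ univ.erase i0, (w i : ℝ) * a i := by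
      rw [← Finset.add_sum_erase _ _ (mem_univ i0), h0]; simp
    have e4 : ∑ i, (a i : ℝ) = a i0 + ∑ i ∈ univ.erase i0, (a i : ℝ) := by
      rw [← Finset.add_sum_erase _ _ (mem_univ i0)]
    have e5 : ∑ i ∈ univ.erase i0, (-(s * w i - θ) * a i) =
        -s * (∑ i ∈ univ.erase i0, (w i : ℝ) * a i) + θ * ∑ i ∈ univ.erase i0, (a i : ℝ) := by
      rw [Finset.mul_sum, Finset.mul_sum, ← Finset.sum_add_distrib]
      apply Finset.sum_congr rfl
      intro i _; ring
    have e6 : θ * p ≤ θ * ∑ i, (a i : ℝ) := mul_le_mul_of_nonneg_left e2 hθ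
    have e7 : 0 ≤ (s - θ) * (a i0 : ℝ) := mul_nonneg (by linarith) (by positivity)
    rw [e5, e1, e3]
    rw [e4] at e6
    nlinarith [e6, e7]
  -- eliminate the coordinate `i0`
  set t : ι → Finset ℕ := fun i => if i = i0 then {0} else Finset.range (m + 1) with ht
  set f : ι → ℕ → ℝ := fun i x => if i = i0 then 1 else Real.exp (-(s * w i - θ) * x) with hf
  have hinj : Set.InjOn (fun a : ι → ℕ => Function.update a i0 0) (S : Set (ι → ℕ)) := by
    intro a ha b hb hab
    simp only [hS, coe_filter, Set.mem_ofPred_eq] at ha hb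
    have h1 : ∀ i, i ≠ i0 → a i = b i := by
      intro i hi
      have := congrFun hab i
      simpa [Function.update_of_ne hi] using this
    have h2 : a i0 = b i0 := by
      have ea := ha.2.1
      have eb := hb.2.1
      rw [← Finset.add_sum_erase _ _ (mem_univ i0), h0] at ea eb
      have : ∑ i ∈ univ.erase i0, w i * a i = ∑ i ∈ univ.erase i0, w i * b i := by
        apply Finset.sum_congr rfl
        intro i hi
        rw [h1 i (Finset.ne_of_mem_erase hi)]
      omega
    funext i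
    by_cases hi : i = i0
    · rw [hi, h2]
    · exact h1 i hi
  have hsum : ∑ a ∈ S, ∏ i ∈ univ.erase i0, Real.exp (-(s * w i - θ) * a i) ≤
      ∑ b ∈ Fintype.piFinset t, ∏ i, f i (b i) := by
    have h1 : ∑ a ∈ S, ∏ i ∈ univ.erase i0, Real.exp (-(s * w i - θ) * a i) =
        ∑ b ∈ S.image (fun a : ι → ℕ => Function.update a i0 0), ∏ i, f i (b i) := by
      rw [Finset.sum_image hinj]
      apply Finset.sum_congr rfl
      intro a _
      rw [← Finset.mul_prod_erase univ _ (mem_univ i0)]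
      simp only [hf, if_true, one_mul]
      apply Finset.prod_congr rfl
      intro i hi
      have hi' := Finset.ne_of_mem_erase hi
      rw [if_neg hi', Function.update_of_ne hi']
    rw [h1]
    apply Finset.sum_le_sum_of_subset_of_nonneg
    · intro b hb
      obtain ⟨a, ha, rfl⟩ := Finset.mem_image.1 hb
      rw [hS, mem_filter, Fintype.mem_piFinset] at ha
      rw [Fintype.mem_piFinset]
      intro i
      by_cases hi : i = i0
      · subst hi; simp [ht]
      · simp only [ht, if_neg hi, Function.update_of_ne hi]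
        exact ha.1 i
    · intro b _ _
      apply Finset.prod_nonneg
      intro i _
      simp only [hf]
      split_ifs <;> positivity
  have hprod : ∑ b ∈ Fintype.piFinset t, ∏ i, f i (b i) ≤
      ∏ i ∈ univ.erase i0, (1 + 1 / (s * w i - θ)) := by
    rw [← Finset.prod_univ_sum, ← Finset.mul_prod_erase univ _ (mem_univ i0)]
    have h1 : ∑ j ∈ t i0, f i0 j = 1 := by simp [ht, hf]
    rw [h1, one_mul]
    apply Finset.prod_le_prod
    · intro i _
      apply Finset.sum_nonneg
      intro j _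
      simp only [hf]
      split_ifs <;> positivity
    · intro i hi
      have hi' := Finset.ne_of_mem_erase hi
      simp only [ht, hf, if_neg hi']
      exact geom_le (hc i) (m + 1)
  have hcard : (cnt w m p : ℝ) = ∑ a ∈ S, (1 : ℝ) := by
    simp [cnt, hS]
  rw [hcard]
  calc ∑ a ∈ S, (1 : ℝ) ≤ ∑ a ∈ S, Real.exp (s * m - θ * p) *
      ∏ i ∈ univ.erase i0, Real.exp (-(s * w i - θ) * a i) := Finset.sum_le_sum key
    _ = Real.exp (s * m - θ * p) *
        ∑ a ∈ S, ∏ i ∈ univ.erase i0, Real.exp (-(s * w i - θ) * a i) := by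
        rw [Finset.mul_sum]
    _ ≤ _ := by
        apply mul_le_mul_of_nonneg_left (le_trans hsum hprod) (Real.exp_pos _).le

/-- The optimised form: `M + 1` variables, `θ = s / 2`, `s = M / m`. -/
theorem cnt_le' {ι : Type*} [Fintype ι] [DecidableEq ι] (w : ι → ℕ) (i0 : ι) (h0 : w i0 = 1)
    (hw : ∀ i, 1 ≤ w i) (m p M : ℕ) (hM : M + 1 = Fintype.card ι) (hM1 : 1 ≤ M) (hm : 1 ≤ m) :
    (cnt w m p : ℝ) ≤ (m : ℝ) ^ M / (M : ℝ) ^ M * Real.exp (M - M * p / (2 * m)) *
      (∏ i ∈ univ.erase i0, ((w i : ℝ) - 1 / 2)⁻¹) *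
      Real.exp (M / m * ∑ i ∈ univ.erase i0, ((w i : ℝ) - 1 / 2)) := by
  have hm' : (0 : ℝ) < m := by exact_mod_cast hm
  have hM' : (0 : ℝ) < M := by exact_mod_cast hM1
  set s : ℝ := M / m with hs
  have hs0 : 0 < s := by positivity
  have h1 := cnt_le w i0 h0 hw m p (θ := s / 2) (s := s) (by positivity) (by linarith)
  refine le_trans h1 ?_
  have e1 : s * m - s / 2 * p = M - M * p / (2 * m) := by
    rw [hs]; field_simp
  rw [e1]
  have hx : ∀ i, 0 < (w i : ℝ) - 1 / 2 := by
    intro i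
    have : (1 : ℝ) ≤ w i := by exact_mod_cast hw i
    linarith
  have hcard : (univ.erase i0 : Finset ι).card = M := by
    rw [Finset.card_erase_of_mem (mem_univ i0), Finset.card_univ, ← hM]; simp
  have e2 : ∏ i ∈ univ.erase i0, (1 + 1 / (s * w i - s / 2)) =
      (s⁻¹) ^ M * (∏ i ∈ univ.erase i0, ((w i : ℝ) - 1 / 2)⁻¹) *
        ∏ i ∈ univ.erase i0, (1 + s * ((w i : ℝ) - 1 / 2)) := by
    rw [← hcard, ← Finset.prod_const, ← Finset.prod_mul_distrib, ← Finset.prod_mul_distrib]
    apply Finset.prod_congr rfl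
    intro i _
    have h2 : s * w i - s / 2 = s * ((w i : ℝ) - 1 / 2) := by ring
    rw [h2]
    have h3 := (hx i).ne'
    have h4 := hs0.ne'
    generalize (w i : ℝ) - 1 / 2 = y at *
    field_simp
    ring
  have e3 : ∏ i ∈ univ.erase i0, (1 + s * ((w i : ℝ) - 1 / 2)) ≤
      Real.exp (s * ∑ i ∈ univ.erase i0, ((w i : ℝ) - 1 / 2)) := by
    rw [Finset.mul_sum, Real.exp_sum]
    apply Finset.prod_le_prod
    · intro i _
      have := hx i
      positivity
    · intro i _
      linarith [Real.add_one_le_exp (s * ((w i : ℝ) - 1 / 2))]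
  have e4 : (s⁻¹) ^ M = (m : ℝ) ^ M / (M : ℝ) ^ M := by
    rw [hs, inv_div, div_pow]
  rw [e2, e4]
  have e5 : 0 ≤ ∏ i ∈ univ.erase i0, ((w i : ℝ) - 1 / 2)⁻¹ := by
    apply Finset.prod_nonneg
    intro i _
    exact (inv_pos.2 (hx i)).le
  calc Real.exp (M - M * p / (2 * m)) * ((m : ℝ) ^ M / (M : ℝ) ^ M *
        (∏ i ∈ univ.erase i0, ((w i : ℝ) - 1 / 2)⁻¹) *
        ∏ i ∈ univ.erase i0, (1 + s * ((w i : ℝ) - 1 / 2)))
      ≤ Real.exp (M - M * p / (2 * m)) * ((m : ℝ) ^ M / (M : ℝ) ^ M *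
        (∏ i ∈ univ.erase i0, ((w i : ℝ) - 1 / 2)⁻¹) *
        Real.exp (s * ∑ i ∈ univ.erase i0, ((w i : ℝ) - 1 / 2))) := by
        apply mul_le_mul_of_nonneg_left _ (Real.exp_pos _).le
        apply mul_le_mul_of_nonneg_left e3
        positivity
    _ = _ := by ring

end Pool.H64.KB
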