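import Pool.Agent.H64.KB.Chern

/-!
# The count of monomials of weight `m` and large degree for jets

Variables `x (j, i)`, `j < k`, `i < n`, of weight `j + 1`.
-/

namespace Pool.H64.KB

open Finset

/-- The weight of the variable `(j, i)` is `j + 1`. -/
def jw (k n : ℕ) : Fin k × Fin n → ℕ := fun x => x.1.val + 1

theorem jw_pos (k n : ℕ) (x : Fin k × Fin n) : 1 ≤ jw k n x := by simp [jw]

/-- `∏_{j ≤ k} (1 - 1 / (2 j))⁻¹ ≤ 2 √k`. -/
theorem prod_half_le {k : ℕ} (hk : 1 ≤ k) :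
    ∏ j ∈ range k, (1 - 1 / (2 * ((j : ℝ) + 1)))⁻¹ ≤ 2 * √(k : ℝ) := by
  have hpos : ∀ k : ℕ, 0 ≤ ∏ j ∈ range k, (1 - 1 / (2 * ((j : ℝ) + 1)))⁻¹ := by
    intro k
    apply Finset.prod_nonneg
    intro j _
    have h1 : (0 : ℝ) ≤ j := by positivity
    have h2 : 1 / (2 * ((j : ℝ) + 1)) ≤ 1 := by
      rw [div_le_one (by positivity)]; linarith
    exact inv_nonneg.2 (by linarith)
  have hsq : ∀ k : ℕ, 1 ≤ k →
      (∏ j ∈ range k, (1 - 1 / (2 * ((j : ℝ) + 1)))⁻¹) ^ 2 ≤ 4 * (k : ℝ) := by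
    intro k hk
    induction k, hk using Nat.le_induction with
    | base => norm_num
    | succ k hk ih =>
      rw [Finset.prod_range_succ, mul_pow]
      have hk' : (0 : ℝ) < k := by exact_mod_cast hk
      have h1 : (1 - 1 / (2 * ((k : ℝ) + 1)))⁻¹ ^ 2 = (2 * (k + 1)) ^ 2 / (2 * k + 1) ^ 2 := by
        have : (1 - 1 / (2 * ((k : ℝ) + 1))) = (2 * k + 1) / (2 * (k + 1)) := by
          field_simp; ring
        rw [this, inv_div, div_pow]
      rw [h1]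
      calc _ ≤ 4 * (k : ℝ) * ((2 * (k + 1)) ^ 2 / (2 * k + 1) ^ 2) := by
            apply mul_le_mul_of_nonneg_right ih (by positivity)
        _ ≤ 4 * ((k + 1 : ℕ) : ℝ) := by
            push_cast
            rw [mul_div_assoc', div_le_iff₀ (by positivity)]
            nlinarith [sq_nonneg (k : ℝ), hk']
  have h := hsq k hk
  have h2 : (2 * √(k : ℝ)) ^ 2 = 4 * k := by
    rw [mul_pow, Real.sq_sqrt (by positivity)]; norm_num
  rw [← h2] at h
  exact le_of_sq_le_sq h (by positivity)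

/-- `M ! ≤ e √M (M / e) ^ M`. -/
theorem factorial_le {M : ℕ} (hM : 1 ≤ M) :
    (M.factorial : ℝ) * Real.exp M / (M : ℝ) ^ M ≤ Real.exp 1 * √(M : ℝ) := by
  obtain ⟨r, rfl⟩ : ∃ r, M = r + 1 := ⟨M - 1, by omega⟩
  have h1 := Stirling.stirlingSeq'_antitone (Nat.zero_le r)
  simp only [Function.comp, Nat.succ_eq_add_one] at h1
  rw [show (0 + 1 : ℕ) = 1 from rfl, Stirling.stirlingSeq_one, Stirling.stirlingSeq] at h1
  have hM' : (0 : ℝ) < ((r + 1 : ℕ) : ℝ) := by positivity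
  have hs2 : 0 < √(2 : ℝ) := by positivity
  have hsM : 0 < √(((r + 1 : ℕ) : ℝ)) := by positivity
  have hmul : √(2 * ((r + 1 : ℕ) : ℝ)) = √2 * √(((r + 1 : ℕ) : ℝ)) := by
    rw [Real.sqrt_mul (by norm_num)]
  rw [hmul, div_pow, ← Real.exp_nat_mul, mul_one] at h1
  rw [div_le_div_iff₀ (by positivity) hs2] at h1
  rw [div_le_iff₀ (by positivity)]
  have h2 : ((r + 1).factorial : ℝ) * √2 ≤ (Real.exp 1 * √(((r + 1 : ℕ) : ℝ)) *
      (((r + 1 : ℕ) : ℝ) ^ (r + 1) / Real.exp ((r + 1 : ℕ) : ℝ))) * √2 := by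
    calc _ ≤ _ := h1
      _ = _ := by ring
  have h3 := le_of_mul_le_mul_right h2 hs2
  calc _ ≤ (Real.exp 1 * √(((r + 1 : ℕ) : ℝ)) *
      (((r + 1 : ℕ) : ℝ) ^ (r + 1) / Real.exp ((r + 1 : ℕ) : ℝ))) *
        Real.exp ((r + 1 : ℕ) : ℝ) := by
        apply mul_le_mul_of_nonneg_right h3 (Real.exp_pos _).le
    _ = _ := by
        have := (Real.exp_pos (((r + 1 : ℕ) : ℝ))).ne'
        field_simp

theorem prod_jw_le {k n : ℕ} (hk : 1 ≤ k) (hn : 1 ≤ n) :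
    ∏ x ∈ univ.erase ((⟨0, hk⟩, ⟨0, hn⟩) : Fin k × Fin n), ((jw k n x : ℝ) - 1 / 2)⁻¹ ≤
      1 / 2 * (2 * √(k : ℝ)) ^ n / ((k.factorial : ℝ) ^ n) := by
  set i0 : Fin k × Fin n := (⟨0, hk⟩, ⟨0, hn⟩) with hi0
  have h1 := Finset.mul_prod_erase univ (fun x : Fin k × Fin n => ((jw k n x : ℝ) - 1 / 2)⁻¹)
    (mem_univ i0)
  have h2 : ((jw k n i0 : ℝ) - 1 / 2)⁻¹ = 2 := by
    simp [jw, hi0]; norm_num
  rw [h2] at h1
  have h3 : ∏ x : Fin k × Fin n, ((jw k n x : ℝ) - 1 / 2)⁻¹ =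
      (∏ j ∈ range k, (((j : ℝ) + 1) - 1 / 2)⁻¹) ^ n := by
    rw [Fintype.prod_prod_type]
    simp only [jw, Finset.prod_const, Finset.card_univ, Fintype.card_fin]
    rw [Finset.prod_pow, Finset.prod_range]
    push_cast
    rfl
  have h4 : ∏ j ∈ range k, (((j : ℝ) + 1) - 1 / 2)⁻¹ =
      (∏ j ∈ range k, (1 - 1 / (2 * ((j : ℝ) + 1)))⁻¹) / (k.factorial : ℝ) := by
    have h5 : (k.factorial : ℝ) = ∏ j ∈ range k, ((j : ℝ) + 1) := by
      rw [← Finset.prod_range_add_one_eq_factorial]; push_cast; rfl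
    rw [h5, ← Finset.prod_div_distrib]
    apply Finset.prod_congr rfl
    intro j _
    have h6 : (0 : ℝ) < (j : ℝ) + 1 := by positivity
    have h7 : 0 < ((j : ℝ) + 1) - 1 / 2 := by
      have : (0 : ℝ) ≤ j := by positivity
      linarith
    have h8 : 1 - 1 / (2 * ((j : ℝ) + 1)) = (((j : ℝ) + 1) - 1 / 2) / ((j : ℝ) + 1) := by
      field_simp
    rw [h8, inv_div]
    field_simp
  have h9 : (0 : ℝ) < k.factorial := by positivity
  have h10 : 0 ≤ ∏ j ∈ range k, (1 - 1 / (2 * ((j : ℝ) + 1)))⁻¹ := by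
    apply Finset.prod_nonneg
    intro j _
    have h1 : (0 : ℝ) ≤ j := by positivity
    have h2 : 1 / (2 * ((j : ℝ) + 1)) ≤ 1 := by
      rw [div_le_one (by positivity)]; linarith
    exact inv_nonneg.2 (by linarith)
  have h11 : (∏ j ∈ range k, (1 - 1 / (2 * ((j : ℝ) + 1)))⁻¹) ^ n ≤ (2 * √(k : ℝ)) ^ n :=
    pow_le_pow_left₀ h10 (prod_half_le hk) n
  have h12 : ∏ x ∈ univ.erase i0, ((jw k n x : ℝ) - 1 / 2)⁻¹ =
      1 / 2 * (∏ j ∈ range k, (1 - 1 / (2 * ((j : ℝ) + 1)))⁻¹) ^ n / ((k.factorial : ℝ) ^ n) := by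
    have : ∏ x ∈ univ.erase i0, ((jw k n x : ℝ) - 1 / 2)⁻¹ =
        1 / 2 * ∏ x : Fin k × Fin n, ((jw k n x : ℝ) - 1 / 2)⁻¹ := by
      rw [← h1]; ring
    rw [this, h3, h4, div_pow]
    ring
  rw [h12]
  apply div_le_div_of_nonneg_right _ (by positivity)
  apply mul_le_mul_of_nonneg_left h11 (by norm_num)

/-- The main count, explicit for every `m`. -/
theorem cnt_jw_le {k n : ℕ} (hk : 1 ≤ k) (hn : 1 ≤ n) (m p M : ℕ) (hM : M + 1 = k * n)
    (hM1 : 1 ≤ M) (hm : 1 ≤ m) :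
    (cnt (jw k n) m p : ℝ) ≤ (m : ℝ) ^ M / (M.factorial * (k.factorial : ℝ) ^ n) *
      (Real.exp 1 * √(M : ℝ) * (1 / 2 * (2 * √(k : ℝ)) ^ n) * Real.exp (-(M * p / (2 * m)))) *
      Real.exp (M * (k * n * k) / m) := by
  have hm' : (0 : ℝ) < m := by exact_mod_cast hm
  have hM' : (0 : ℝ) < M := by exact_mod_cast hM1
  set i0 : Fin k × Fin n := (⟨0, hk⟩, ⟨0, hn⟩) with hi0
  have h1 := cnt_le' (jw k n) i0 (by simp [jw, hi0]) (jw_pos k n) m p M (by simp [hM]) hM1 hm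
  refine le_trans h1 ?_
  have h2 := prod_jw_le (k := k) (n := n) hk hn
  rw [← hi0] at h2
  have h3 := factorial_le hM1
  have hf : (0 : ℝ) < M.factorial := by positivity
  have hkf : (0 : ℝ) < (k.factorial : ℝ) ^ n := by positivity
  have h4 : ∑ x ∈ univ.erase i0, ((jw k n x : ℝ) - 1 / 2) ≤ k * n * k := by
    calc _ ≤ ∑ x ∈ univ.erase i0, (k : ℝ) := by
          apply Finset.sum_le_sum
          intro x _
          have : (jw k n x : ℝ) ≤ k := by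
            have : jw k n x ≤ k := by simp only [jw]; have := x.1.isLt; omega
            exact_mod_cast this
          linarith
      _ ≤ ∑ x : Fin k × Fin n, (k : ℝ) := by
          apply Finset.sum_le_sum_of_subset_of_nonneg (Finset.erase_subset _ _)
          intro _ _ _; positivity
      _ = k * n * k := by simp
  have h5 : Real.exp (M / m * ∑ x ∈ univ.erase i0, ((jw k n x : ℝ) - 1 / 2)) ≤
      Real.exp (M * (k * n * k) / m) := by
    apply Real.exp_le_exp.2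
    calc (M : ℝ) / m * ∑ x ∈ univ.erase i0, ((jw k n x : ℝ) - 1 / 2) ≤ M / m * (k * n * k) := by
          apply mul_le_mul_of_nonneg_left h4 (by positivity)
      _ = _ := by ring
  have h6 : Real.exp (M - M * p / (2 * m)) = Real.exp M * Real.exp (-(M * p / (2 * m))) := by
    rw [← Real.exp_add]; ring_nf
  have h7 : (m : ℝ) ^ M / (M : ℝ) ^ M * Real.exp (M - M * p / (2 * m)) =
      (m : ℝ) ^ M / M.factorial * ((M.factorial : ℝ) * Real.exp M / (M : ℝ) ^ M) *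
        Real.exp (-(M * p / (2 * m))) := by
    rw [h6]; field_simp
  have h8 : 0 ≤ ∏ x ∈ univ.erase i0, ((jw k n x : ℝ) - 1 / 2)⁻¹ := by
    apply Finset.prod_nonneg
    intro x _
    have : (1 : ℝ) ≤ jw k n x := by exact_mod_cast jw_pos k n x
    exact inv_nonneg.2 (by linarith)
  rw [h7]
  calc (m : ℝ) ^ M / M.factorial * ((M.factorial : ℝ) * Real.exp M / (M : ℝ) ^ M) *
        Real.exp (-(M * p / (2 * m))) * (∏ x ∈ univ.erase i0, ((jw k n x : ℝ) - 1 / 2)⁻¹) *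
        Real.exp (M / m * ∑ x ∈ univ.erase i0, ((jw k n x : ℝ) - 1 / 2))
      ≤ (m : ℝ) ^ M / M.factorial * (Real.exp 1 * √(M : ℝ)) *
        Real.exp (-(M * p / (2 * m))) * (1 / 2 * (2 * √(k : ℝ)) ^ n / ((k.factorial : ℝ) ^ n)) *
        Real.exp (M * (k * n * k) / m) := by
        gcongr
    _ = _ := by field_simp

theorem exp_263 : 8 * √3 ≤ Real.exp 2.63 := by
  have h1 : √(3 : ℝ) ≤ 1.7320509 := by
    rw [Real.sqrt_le_left (by norm_num)]; norm_num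
  have h2 : (2.7182818283 : ℝ) < Real.exp 1 := Real.exp_one_gt_d9
  have h3 : (1.8774 : ℝ) ≤ Real.exp 0.63 := by
    have := Real.sum_le_exp_of_nonneg (x := 0.63) (by norm_num) 6
    refine le_trans ?_ this
    norm_num [Finset.sum_range_succ, Nat.factorial]
  have h4 : Real.exp 2.63 = Real.exp 1 * Real.exp 1 * Real.exp 0.63 := by
    rw [← Real.exp_add, ← Real.exp_add]; norm_num
  rw [h4]
  calc 8 * √(3 : ℝ) ≤ 8 * 1.7320509 := by linarith
    _ ≤ 2.7182818283 * 2.7182818283 * 1.8774 := by norm_num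
    _ ≤ _ := by gcongr

theorem exp_294 : 4 * √3 * Real.exp 1 ≤ Real.exp 2.94 := by
  have h1 : √(3 : ℝ) ≤ 1.7320509 := by
    rw [Real.sqrt_le_left (by norm_num)]; norm_num
  have h2 : (2.7182818283 : ℝ) < Real.exp 1 := Real.exp_one_gt_d9
  have h3 : (0.94 : ℝ) ≤ Real.exp (-0.06) := by
    have := Real.add_one_le_exp (-0.06 : ℝ)
    linarith
  have h4 : Real.exp 2.94 = (Real.exp 1 * Real.exp 1 * Real.exp (-0.06)) * Real.exp 1 := by
    rw [← Real.exp_add, ← Real.exp_add, ← Real.exp_add]; norm_num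
  rw [h4]
  apply mul_le_mul_of_nonneg_right _ (Real.exp_pos _).le
  calc 4 * √(3 : ℝ) ≤ 4 * 1.7320509 := by linarith
    _ ≤ 2.7182818283 * 2.7182818283 * 0.94 := by norm_num
    _ ≤ _ := by gcongr

/-- `T n = n (2.5 log n + 2.63) + 2.94 + log n`. -/
noncomputable def T (n : ℕ) : ℝ := n * (2.5 * Real.log n + 2.63) + 2.94 + Real.log n

/-- The numerical heart: with `M = 3 n ^ 2 - 1` and `N = 3 n ^ 2 + n - 1`. -/
theorem exp_T {n : ℕ} (hn : 1 ≤ n) {M N : ℕ} (hM : M + 1 = 3 * n * n) (hN : N = M + n) :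
    4 * Real.exp 1 * √(M : ℝ) * (2 * √((3 * n : ℕ) : ℝ)) ^ n * (N : ℝ) ^ n ≤
      Real.exp (T n) := by
  have hn' : (0 : ℝ) < n := by exact_mod_cast hn
  have h1 : √(M : ℝ) ≤ √3 * n := by
    have : (M : ℝ) ≤ 3 * (n : ℝ) ^ 2 := by
      have : M ≤ 3 * n ^ 2 := by nlinarith
      exact_mod_cast this
    calc √(M : ℝ) ≤ √(3 * (n : ℝ) ^ 2) := Real.sqrt_le_sqrt this
      _ = √3 * n := by rw [Real.sqrt_mul (by norm_num), Real.sqrt_sq hn'.le]
  have h2 : √((3 * n : ℕ) : ℝ) = √3 * √(n : ℝ) := by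
    push_cast; rw [Real.sqrt_mul (by norm_num)]
  have h3 : (N : ℝ) ≤ 4 * (n : ℝ) ^ 2 := by
    have : N ≤ 4 * n ^ 2 := by subst hN; nlinarith
    exact_mod_cast this
  have h4 : (2 * √((3 * n : ℕ) : ℝ)) ^ n * (N : ℝ) ^ n ≤
      (8 * √3) ^ n * (√(n : ℝ) * (n : ℝ) ^ 2) ^ n := by
    rw [← mul_pow, ← mul_pow]
    apply pow_le_pow_left₀ (by positivity)
    rw [h2]
    calc 2 * (√3 * √(n : ℝ)) * (N : ℝ) ≤ 2 * (√3 * √(n : ℝ)) * (4 * (n : ℝ) ^ 2) := by
          apply mul_le_mul_of_nonneg_left h3 (by positivity)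
      _ = _ := by ring
  have h5 : √(n : ℝ) * (n : ℝ) ^ 2 = Real.exp (2.5 * Real.log n) := by
    rw [Real.sqrt_eq_rpow, ← Real.rpow_natCast (n : ℝ) 2, ← Real.rpow_add hn',
      Real.rpow_def_of_pos hn']
    congr 1
    push_cast; ring
  have h6 : (8 * √3) ^ n * (√(n : ℝ) * (n : ℝ) ^ 2) ^ n ≤
      Real.exp (n * (2.5 * Real.log n + 2.63)) := by
    rw [h5, ← mul_pow, mul_comm (n : ℝ) (2.5 * Real.log n + 2.63), mul_comm _ (n : ℝ),
      Real.exp_nat_mul]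
    apply pow_le_pow_left₀ (by positivity)
    rw [Real.exp_add, mul_comm]
    apply mul_le_mul_of_nonneg_left exp_263 (Real.exp_pos _).le
  have h7 : Real.exp (T n) = Real.exp (n * (2.5 * Real.log n + 2.63)) *
      (Real.exp 2.94 * n) := by
    rw [T, Real.exp_add, Real.exp_add, Real.exp_log hn']; ring
  rw [h7]
  calc 4 * Real.exp 1 * √(M : ℝ) * (2 * √((3 * n : ℕ) : ℝ)) ^ n * (N : ℝ) ^ n
      = (4 * Real.exp 1 * √(M : ℝ)) * ((2 * √((3 * n : ℕ) : ℝ)) ^ n * (N : ℝ) ^ n) := by ring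
    _ ≤ (4 * Real.exp 1 * (√3 * n)) * Real.exp (n * (2.5 * Real.log n + 2.63)) := by
        apply mul_le_mul _ (le_trans h4 h6) (by positivity) (by positivity)
        apply mul_le_mul_of_nonneg_left h1 (by positivity)
    _ = Real.exp (n * (2.5 * Real.log n + 2.63)) * ((4 * √3 * Real.exp 1) * n) := by ring
    _ ≤ _ := by
        apply mul_le_mul_of_nonneg_left _ (Real.exp_pos _).le
        apply mul_le_mul_of_nonneg_right exp_294 hn'.le

/-- For `k = 3 n` and all large `m`: at most `m ^ M / (4 N ^ n M! (k!) ^ n)` monomials of weight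
`m` have degree `≥ p`, as soon as `M p / (2 m) ≥ T n`. -/
theorem cnt_jets {n : ℕ} (hn : 1 ≤ n) {M N : ℕ} (hM : M + 1 = 3 * n * n) (hN : N = M + n) :
    ∃ m₀ : ℕ, 1 ≤ m₀ ∧ ∀ m p : ℕ, m₀ ≤ m → T n ≤ M * p / (2 * m) →
      (cnt (jw (3 * n) n) m p : ℝ) ≤
        (m : ℝ) ^ M / (M.factorial * (((3 * n).factorial : ℕ) : ℝ) ^ n) / (4 * (N : ℝ) ^ n) := by
  have hM1 : 1 ≤ M := by nlinarith
  have hN1 : 1 ≤ N := by omega
  have hN' : (0 : ℝ) < N := by exact_mod_cast hN1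
  have hMN : (0 : ℝ) < M := by exact_mod_cast hM1
  set K : ℝ := (((3 * n : ℕ) : ℝ) * n * ((3 * n : ℕ) : ℝ)) with hK
  have hK0 : 0 ≤ K := by positivity
  refine ⟨⌈2 * (M * K)⌉₊ + 1, by omega, ?_⟩
  intro m p hm hp
  have hm1 : 1 ≤ m := by omega
  have hm' : (0 : ℝ) < m := by exact_mod_cast hm1
  have h1 := cnt_jw_le (k := 3 * n) (n := n) (by omega) hn m p M hM hM1 hm1
  refine le_trans h1 ?_
  have h2 : Real.exp (M * K / m) ≤ 2 := by
    have h3 : M * K / m ≤ 1 / 2 := by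
      rw [div_le_iff₀ hm']
      have : 2 * (M * K) ≤ m := by
        calc 2 * (M * K) ≤ (⌈2 * (M * K)⌉₊ : ℝ) := Nat.le_ceil _
          _ ≤ m := by exact_mod_cast (by omega : ⌈2 * (M * K)⌉₊ ≤ m)
      linarith
    have h4 : Real.exp (M * K / m) ≤ Real.exp (1 / 2) := Real.exp_le_exp.2 h3
    have h5 : Real.exp (1 / 2) ^ 2 = Real.exp 1 := by
      rw [← Real.exp_nat_mul]; norm_num
    have h6 : Real.exp 1 < 2.7182818286 := Real.exp_one_lt_d9
    have h7 : Real.exp (1 / 2) ≤ 2 := by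
      apply le_of_sq_le_sq _ (by norm_num : (0 : ℝ) ≤ 2)
      rw [h5]; linarith
    linarith
  have h3 : Real.exp (-(M * p / (2 * m))) ≤ Real.exp (-(T n)) :=
    Real.exp_le_exp.2 (by linarith)
  have h4 := exp_T hn hM hN
  have hA : 0 ≤ (m : ℝ) ^ M / (M.factorial * (((3 * n).factorial : ℕ) : ℝ) ^ n) := by positivity
  have hE : 0 < Real.exp (T n) := Real.exp_pos _
  have h5 : (Real.exp 1 * √(M : ℝ) * (1 / 2 * (2 * √((3 * n : ℕ) : ℝ)) ^ n) *
      Real.exp (-(M * p / (2 * m)))) * 2 ≤ 1 / (4 * (N : ℝ) ^ n) := by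
    calc _ ≤ (Real.exp 1 * √(M : ℝ) * (1 / 2 * (2 * √((3 * n : ℕ) : ℝ)) ^ n) *
          Real.exp (-(T n))) * 2 := by gcongr
      _ ≤ 1 / (4 * (N : ℝ) ^ n) := by
          rw [Real.exp_neg, le_div_iff₀ (by positivity)]
          have h6 : (Real.exp 1 * √(M : ℝ) * (1 / 2 * (2 * √((3 * n : ℕ) : ℝ)) ^ n) *
              (Real.exp (T n))⁻¹) * 2 * (4 * (N : ℝ) ^ n) =
              (4 * Real.exp 1 * √(M : ℝ) * (2 * √((3 * n : ℕ) : ℝ)) ^ n * (N : ℝ) ^ n) *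
                (Real.exp (T n))⁻¹ := by ring
          rw [h6, ← div_eq_mul_inv, div_le_one hE]
          exact h4
  calc _ ≤ (m : ℝ) ^ M / (M.factorial * (((3 * n).factorial : ℕ) : ℝ) ^ n) *
      (Real.exp 1 * √(M : ℝ) * (1 / 2 * (2 * √((3 * n : ℕ) : ℝ)) ^ n) *
        Real.exp (-(M * p / (2 * m)))) * 2 := by
        apply mul_le_mul_of_nonneg_left h2 (by positivity)
    _ = (m : ℝ) ^ M / (M.factorial * (((3 * n).factorial : ℕ) : ℝ) ^ n) *
      ((Real.exp 1 * √(M : ℝ) * (1 / 2 * (2 * √((3 * n : ℕ) : ℝ)) ^ n) *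
        Real.exp (-(M * p / (2 * m)))) * 2) := by ring
    _ ≤ (m : ℝ) ^ M / (M.factorial * (((3 * n).factorial : ℕ) : ℝ) ^ n) *
        (1 / (4 * (N : ℝ) ^ n)) := mul_le_mul_of_nonneg_left h5 hA
    _ = _ := by ring

end Pool.H64.KB
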