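import Pool.Agent.H64.KB.DetProb

/-!
# The integral of a determinant over a rare event (module V2 of THEOREM K', part (b))
-/

namespace Pool.H64.KB

open MeasureTheory Finset ProbabilityTheory Matrix Polynomial
open scoped ComplexOrder

/-- The leading coefficient of a polynomial that is nonnegative for `x ≥ 1` is nonnegative. -/
theorem nonneg_top {κ : Type*} [DecidableEq κ] (c : Finset κ → ℝ) (I : Finset κ)
    (h : ∀ x : ℝ, 1 ≤ x → 0 ≤ ∑ J ∈ I.powerset, x ^ J.card * c J) : 0 ≤ c I := by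
  by_contra hneg
  rw [not_le] at hneg
  set K : ℝ := ∑ J ∈ I.powerset.erase I, |c J| with hK
  have hK0 : 0 ≤ K := Finset.sum_nonneg fun _ _ => abs_nonneg _
  set x : ℝ := max 1 ((K + 1) / (-c I)) with hx
  have hx1 : 1 ≤ x := le_max_left _ _
  have hx0 : 0 < x := by linarith
  have hx2 : (K + 1) / (-c I) ≤ x := le_max_right _ _
  have hx3 : K + 1 ≤ x * (-c I) := by
    rwa [div_le_iff₀ (by linarith)] at hx2
  have h1 := h x hx1
  rw [← Finset.add_sum_erase _ _ (Finset.mem_powerset_self I)] at h1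
  have h2 : x * ∑ J ∈ I.powerset.erase I, x ^ J.card * c J ≤ x ^ I.card * K := by
    rw [Finset.mul_sum, hK, Finset.mul_sum]
    apply Finset.sum_le_sum
    intro J hJ
    rw [Finset.mem_erase, Finset.mem_powerset] at hJ
    have hcard : J.card < I.card :=
      Finset.card_lt_card (Finset.ssubset_iff_subset_ne.2 ⟨hJ.2, hJ.1⟩)
    have e1 : x * x ^ J.card ≤ x ^ I.card := by
      rw [← pow_succ']
      exact pow_le_pow_right₀ hx1 hcard
    calc x * (x ^ J.card * c J) = (x * x ^ J.card) * c J := by ring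
      _ ≤ (x * x ^ J.card) * |c J| :=
          mul_le_mul_of_nonneg_left (le_abs_self _) (by positivity)
      _ ≤ x ^ I.card * |c J| := mul_le_mul_of_nonneg_right e1 (abs_nonneg _)
  have h3 : 0 ≤ x * (x ^ I.card * c I + ∑ J ∈ I.powerset.erase I, x ^ J.card * c J) :=
    mul_nonneg hx0.le h1
  have hxI : 0 < x ^ I.card := by positivity
  nlinarith [h2, h3, hx3, hxI]

section Main

set_option linter.unusedSectionVars false

variable {E : Type*} [MeasurableSpace E] {μ : Measure E} [IsProbabilityMeasure μ]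
  {κ : Type*} [Fintype κ] [DecidableEq κ] {ι : Type*} [Fintype ι] [DecidableEq ι]
  {f : E → ι → ℂ} {b : Matrix ι ι ℂ}

theorem rk_posSemidef (f : E → ι → ℂ) (x : E) : (rk f x).PosSemidef :=
  Matrix.posSemidef_vecMulVec_self_star (f x)

theorem re_prod_mul (w : κ → ℝ) (I : Finset κ) (z : ℂ) :
    ((∏ s ∈ I, (w s : ℂ)) * z).re = (∏ s ∈ I, w s) * z.re := by
  rw [← Complex.ofReal_prod, Complex.re_ofReal_mul]

theorem det_sum_posSemidef {M₀ : Matrix ι ι ℂ} (hM : M₀.PosSemidef) (w : κ → ℝ)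
    (hw : ∀ s, 0 ≤ w s) (T : Finset κ) (ω : κ → E) :
    (M₀ + ∑ s ∈ T, (w s : ℂ) • rk f (ω s)).PosSemidef := by
  apply hM.add
  apply Matrix.posSemidef_sum
  intro s _
  apply (rk_posSemidef f (ω s)).smul
  rw [Complex.zero_le_real]; exact hw s

/-- `D_I ≥ 0`. -/
theorem Dp_re_nonneg {M₀ : Matrix ι ι ℂ} (hM : M₀.PosSemidef) (I : Finset κ) (ω : κ → E) :
    0 ≤ (Dp I M₀ (fun s => rk f (ω s))).re := by
  apply nonneg_top (fun J => (Dp J M₀ (fun s => rk f (ω s))).re) I
  intro x hx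
  have h1 := det_sum_posSemidef (f := f) hM (fun _ : κ => x) (fun _ => by linarith) I ω
  have h2 := h1.det_nonneg
  rw [det_add_sum (fun s => rk f (ω s)) (rk_rank_one ω) (fun _ => (x : ℂ)) I M₀] at h2
  have h3 := (Complex.le_def.1 h2).1
  rw [Complex.re_sum] at h3
  refine le_of_le_of_eq h3 ?_
  apply Finset.sum_congr rfl
  intro J _
  rw [re_prod_mul (fun _ => x) J, Finset.prod_const]

theorem integrable_Dp_re (hf : ∀ a, Mom μ (fun x => f x a)) (M₀ : Matrix ι ι ℂ)
    (I : Finset κ) : Integrable (fun ω => (Dp I M₀ (fun s => rk f (ω s))).re)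
      (Measure.pi (fun _ : κ => μ)) :=
  (mom_Dp hf M₀ I).integrable.re

theorem integral_Dp_re (h : Vec μ f b) (M₀ : Matrix ι ι ℂ) (I : Finset κ) :
    ∫ ω, (Dp I M₀ (fun s => rk f (ω s))).re ∂(Measure.pi (fun _ : κ => μ)) =
      (I.card.factorial : ℝ) * ((det (pm M₀ b)).coeff I.card).re := by
  have h1 := integral_Dp h M₀ I
  have h2 : ∫ ω, (Dp I M₀ (fun s => rk f (ω s))).re ∂(Measure.pi (fun _ : κ => μ)) =
      (∫ ω, Dp I M₀ (fun s => rk f (ω s)) ∂(Measure.pi (fun _ : κ => μ))).re :=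
    integral_re (mom_Dp h.mom M₀ I).integrable
  rw [h2, h1]
  have : ((I.card.factorial : ℕ) : ℂ) = ((I.card.factorial : ℝ) : ℂ) := by push_cast; rfl
  rw [this, Complex.re_ofReal_mul]

/-- the real part of the determinant as a sum. -/
theorem det_re_eq (M₀ : Matrix ι ι ℂ) (w : κ → ℝ) (ω : κ → E) :
    (det (M₀ + ∑ s, (w s : ℂ) • rk f (ω s))).re =
      ∑ I : Finset κ, (∏ s ∈ I, w s) * (Dp I M₀ (fun s => rk f (ω s))).re := by
  rw [det_add_sum (fun s => rk f (ω s)) (rk_rank_one ω) (fun s => (w s : ℂ)) univ M₀,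
    Finset.powerset_univ, Complex.re_sum]
  apply Finset.sum_congr rfl
  intro I _
  rw [re_prod_mul]

theorem integrable_det_re (hf : ∀ a, Mom μ (fun x => f x a)) (M₀ : Matrix ι ι ℂ) (w : κ → ℝ) :
    Integrable (fun ω => (det (M₀ + ∑ s, (w s : ℂ) • rk f (ω s))).re)
      (Measure.pi (fun _ : κ => μ)) := by
  simp_rw [det_re_eq]
  exact integrable_finsetSum _ fun I _ => (integrable_Dp_re hf M₀ I).const_mul _

theorem det_re_nonneg {M₀ : Matrix ι ι ℂ} (hM : M₀.PosSemidef) (w : κ → ℝ)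
    (hw : ∀ s, 0 ≤ w s) (ω : κ → E) : 0 ≤ (det (M₀ + ∑ s, (w s : ℂ) • rk f (ω s))).re := by
  have h1 := (det_sum_posSemidef (f := f) hM w hw univ ω).det_nonneg
  exact (Complex.le_def.1 h1).1

/-- The expectation, real form. -/
theorem integral_det_re (h : Vec μ f b) (M₀ : Matrix ι ι ℂ) (w : κ → ℝ) :
    ∫ ω, (det (M₀ + ∑ s, (w s : ℂ) • rk f (ω s))).re ∂(Measure.pi (fun _ : κ => μ)) =
      ∑ I : Finset κ, (∏ s ∈ I, w s) *
        ((I.card.factorial : ℝ) * ((det (pm M₀ b)).coeff I.card).re) := by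
  simp_rw [det_re_eq]
  rw [integral_finsetSum _ fun I _ => (integrable_Dp_re h.mom M₀ I).const_mul _]
  apply Finset.sum_congr rfl
  intro I _
  rw [integral_const_mul, integral_Dp_re h]

/-- Integral of `D_I` over an event which does not depend on the coordinates in `I`. -/
theorem setIntegral_Dp_re (h : Vec μ f b) (M₀ : Matrix ι ι ℂ) (I : Finset κ)
    {B : Set (κ → E)} (hB : MeasurableSet B)
    (hI : ∀ x y : κ → E, (∀ s, s ∉ I → x s = y s) → (x ∈ B ↔ y ∈ B)) :
    ∫ ω in B, (Dp I M₀ (fun s => rk f (ω s))).re ∂(Measure.pi (fun _ : κ => μ)) =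
      (Measure.pi (fun _ : κ => μ)).real B *
        ((I.card.factorial : ℝ) * ((det (pm M₀ b)).coeff I.card).re) := by
  rw [← integral_Dp_re h M₀ I, ← integral_indicator hB]
  have h1 : (fun ω => B.indicator (fun ω => (Dp I M₀ (fun s => rk f (ω s))).re) ω) =
      fun ω => B.indicator (fun _ => (1 : ℝ)) ω * (Dp I M₀ (fun s => rk f (ω s))).re := by
    funext ω
    by_cases hω : ω ∈ B <;> simp [hω]
  rw [h1]
  have hm1 : Measurable (fun ω => B.indicator (fun _ => (1 : ℝ)) ω) :=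
    measurable_const.indicator hB
  have hm2 : Measurable (fun ω : κ → E => (Dp I M₀ (fun s => rk f (ω s))).re) :=
    Complex.measurable_re.comp (mom_Dp h.mom M₀ I).1
  have hind : IndepFun (fun ω => B.indicator (fun _ => (1 : ℝ)) ω)
      (fun ω : κ → E => (Dp I M₀ (fun s => rk f (ω s))).re) (Measure.pi (fun _ : κ => μ)) := by
    apply indepFun_of_dependsOn μ hm1 hm2 (I := Iᶜ) (J := I)
    · exact disjoint_compl_left
    · intro x y hxy
      have := hI x y (fun s hs => hxy s (Finset.mem_compl.2 hs))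
      by_cases hx : x ∈ B
      · simp [hx, this.1 hx]
      · have hy : y ∉ B := fun hy => hx (this.2 hy)
        simp [hx, hy]
    · intro x y hxy
      rw [← Dp_pm_coeff_zero M₀ b I x, ← Dp_pm_coeff_zero M₀ b I y, Dp_congr hxy]
  rw [hind.integral_fun_mul_eq_mul_integral hm1.aestronglyMeasurable hm2.aestronglyMeasurable]
  congr 1
  rw [integral_indicator hB]
  simp

/-- (b) The integral over a rare event. -/
theorem setIntegral_det_le (h : Vec μ f b) {M₀ : Matrix ι ι ℂ} (hM : M₀.PosSemidef)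
    (w : κ → ℝ) (hw : ∀ s, 0 ≤ w s) (p : ℝ) {B : Set (κ → E)} (_hB : MeasurableSet B)
    (BI : Finset κ → Set (κ → E))
    (hBI : ∀ I : Finset κ, I.card ≤ Fintype.card ι → MeasurableSet (BI I) ∧
      (∀ x y : κ → E, (∀ s, s ∉ I → x s = y s) → (x ∈ BI I ↔ y ∈ BI I)) ∧ B ⊆ BI I ∧
      (Measure.pi (fun _ : κ => μ)).real (BI I) ≤ p) :
    ∫ ω in B, (det (M₀ + ∑ s, (w s : ℂ) • rk f (ω s))).re ∂(Measure.pi (fun _ : κ => μ)) ≤
      p * ∑ I : Finset κ, (∏ s ∈ I, w s) *
        ((I.card.factorial : ℝ) * ((det (pm M₀ b)).coeff I.card).re) := by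
  simp_rw [det_re_eq]
  rw [integral_finsetSum _ fun I _ =>
    ((integrable_Dp_re h.mom M₀ I).integrableOn (s := B)).integrable.const_mul _, Finset.mul_sum]
  apply Finset.sum_le_sum
  intro I _
  rw [integral_const_mul]
  have hwI : 0 ≤ ∏ s ∈ I, w s := Finset.prod_nonneg fun s _ => hw s
  have hpos : 0 ≤ᵐ[Measure.pi (fun _ : κ => μ)]
      (fun ω => (Dp I M₀ (fun s => rk f (ω s))).re) :=
    Filter.Eventually.of_forall fun ω => Dp_re_nonneg hM I ω
  have hE : 0 ≤ (I.card.factorial : ℝ) * ((det (pm M₀ b)).coeff I.card).re := by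
    rw [← integral_Dp_re (κ := κ) h M₀ I]
    exact integral_nonneg fun ω => Dp_re_nonneg hM I ω
  have key : ∫ ω in B, (Dp I M₀ (fun s => rk f (ω s))).re ∂(Measure.pi (fun _ : κ => μ)) ≤
      p * ((I.card.factorial : ℝ) * ((det (pm M₀ b)).coeff I.card).re) := by
    by_cases hI : I.card ≤ Fintype.card ι
    · obtain ⟨hm, hdep, hsub, hp⟩ := hBI I hI
      calc ∫ ω in B, (Dp I M₀ (fun s => rk f (ω s))).re ∂(Measure.pi (fun _ : κ => μ))
          ≤ ∫ ω in BI I, (Dp I M₀ (fun s => rk f (ω s))).re ∂(Measure.pi (fun _ : κ => μ)) :=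
            setIntegral_mono_set (integrable_Dp_re h.mom M₀ I).integrableOn
              (ae_restrict_of_ae hpos) (Filter.Eventually.of_forall hsub)
        _ = (Measure.pi (fun _ : κ => μ)).real (BI I) *
            ((I.card.factorial : ℝ) * ((det (pm M₀ b)).coeff I.card).re) :=
            setIntegral_Dp_re h M₀ I hm hdep
        _ ≤ _ := mul_le_mul_of_nonneg_right hp hE
    · rw [not_le] at hI
      have h0 : ((det (pm M₀ b)).coeff I.card) = 0 := coeff_pm_eq_zero M₀ b hI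
      calc ∫ ω in B, (Dp I M₀ (fun s => rk f (ω s))).re ∂(Measure.pi (fun _ : κ => μ))
          ≤ ∫ ω, (Dp I M₀ (fun s => rk f (ω s))).re ∂(Measure.pi (fun _ : κ => μ)) :=
            setIntegral_le_integral (integrable_Dp_re h.mom M₀ I) hpos
        _ = 0 := by rw [integral_Dp_re h M₀ I, h0]; simp
        _ = _ := by rw [h0]; simp
  calc (∏ s ∈ I, w s) * ∫ ω in B, (Dp I M₀ (fun s => rk f (ω s))).re
        ∂(Measure.pi (fun _ : κ => μ))
      ≤ (∏ s ∈ I, w s) * (p * ((I.card.factorial : ℝ) *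
        ((det (pm M₀ b)).coeff I.card).re)) := mul_le_mul_of_nonneg_left key hwI
    _ = _ := by ring

/-- Summation over the index sets by cardinality. -/
theorem sum_finset_eq (w : κ → ℝ) (F : ℕ → ℝ) :
    ∑ I : Finset κ, (∏ s ∈ I, w s) * F I.card =
      ∑ i ∈ range (Fintype.card κ + 1),
        (∑ I ∈ powersetCard i (univ : Finset κ), ∏ s ∈ I, w s) * F i := by
  rw [← Finset.powerset_univ, Finset.sum_powerset, Finset.card_univ]
  apply Finset.sum_congr rfl
  intro i _
  rw [Finset.sum_mul]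
  apply Finset.sum_congr rfl
  intro I hI
  rw [(Finset.mem_powersetCard.1 hI).2]

end Main

end Pool.H64.KB
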