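import Mathlib

/-!
# Rank one expansion of a determinant (module V2 of THEOREM K', algebra)

* `det_add_vecMulVec` : the matrix determinant lemma over a commutative ring;
* `derivative_det` : Jacobi's formula for polynomial matrices;
* `Dp I M N` : the multiaffine coefficient (finite difference) of `det (M + ∑ x_s N_s)`;
* `det_add_sum` : `det (M + ∑ w_s N_s) = ∑_I w_I Dp I M N` for rank one `N_s`.
-/

namespace Pool.H64.KB

open Matrix Finset

section DetLemma

variable {R : Type*} [CommRing R] {ι : Type*} [Fintype ι] [DecidableEq ι]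

theorem det_add_rows (A : Matrix ι ι R) (u v : ι → R) (T : Finset ι) :
    det (Matrix.of fun r c => A r c + (if r ∈ T then u r * v c else 0)) =
      det A + ∑ r ∈ T, u r * det (A.updateRow r v) := by
  induction T using Finset.induction_on with
  | empty =>
    simp only [Finset.notMem_empty, if_false, add_zero, Finset.sum_empty]
    rfl
  | insert t T ht ih =>
    rw [Finset.sum_insert ht]
    set A' : Matrix ι ι R := Matrix.of fun r c => A r c + (if r ∈ T then u r * v c else 0)
      with hA'
    have h1 : (Matrix.of fun r c => A r c + (if r ∈ insert t T then u r * v c else 0)) =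
        A'.updateRow t (A' t + u t • v) := by
      ext r c
      by_cases hr : r = t
      · subst hr
        simp [hA', ht]
      · rw [Matrix.updateRow_ne hr]
        simp [hA', hr]
    rw [h1, Matrix.det_updateRow_add, Matrix.updateRow_eq_self, Matrix.det_updateRow_smul, ih]
    have h2 : det (A'.updateRow t v) = det (A.updateRow t v) := by
      apply Matrix.det_eq_of_forall_row_eq_smul_add_const (fun r => if r ∈ T then u r else 0) t
      · simp [ht]
      · intro r c
        by_cases hr : r = t
        · subst hr
          simp [ht]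
        · rw [Matrix.updateRow_ne hr, Matrix.updateRow_ne hr, Matrix.updateRow_self]
          by_cases hrT : r ∈ T <;> simp [hA', hrT]
    rw [h2]; ring

/-- The matrix determinant lemma. -/
theorem det_add_vecMulVec (A : Matrix ι ι R) (u v : ι → R) :
    det (A + vecMulVec u v) = det A + ∑ a, ∑ c, u a * v c * A.adjugate c a := by
  have h := det_add_rows A u v univ
  have h1 : (Matrix.of fun r c => A r c + (if r ∈ (univ : Finset ι) then u r * v c else 0)) =
      A + vecMulVec u v := by
    ext r c; simp [vecMulVec_apply]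
  rw [h1] at h
  rw [h]
  congr 1
  apply Finset.sum_congr rfl
  intro r _
  rw [← Matrix.cramer_transpose_apply, Matrix.cramer_eq_adjugate_mulVec, Matrix.mulVec,
    dotProduct, Finset.mul_sum]
  apply Finset.sum_congr rfl
  intro c _
  rw [← Matrix.adjugate_transpose, Matrix.transpose_apply]
  ring

end DetLemma

section Jacobi

open Polynomial

variable {R : Type*} [CommRing R] {ι : Type*} [Fintype ι] [DecidableEq ι]

/-- Jacobi's formula. -/
theorem derivative_det (A : Matrix ι ι R[X]) :
    derivative (det A) = ∑ a, ∑ c, derivative (A a c) * A.adjugate c a := by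
  have h1 : derivative (det A) = ∑ c, det (A.updateCol c (fun a => derivative (A a c))) := by
    rw [Matrix.det_apply, Polynomial.derivative_sum]
    have h2 : ∀ c, det (A.updateCol c (fun a => derivative (A a c))) =
        ∑ σ : Equiv.Perm ι, Equiv.Perm.sign σ • ((∏ b ∈ univ.erase c, A (σ b) b) *
          derivative (A (σ c) c)) := by
      intro c
      rw [Matrix.det_apply]
      apply Finset.sum_congr rfl
      intro σ _
      congr 1
      rw [← Finset.mul_prod_erase univ _ (mem_univ c), Matrix.updateCol_self, mul_comm]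
      congr 1
      apply Finset.prod_congr rfl
      intro b hb
      rw [Matrix.updateCol_ne (Finset.ne_of_mem_erase hb)]
    simp_rw [h2]
    rw [Finset.sum_comm]
    apply Finset.sum_congr rfl
    intro σ _
    rw [← Finset.smul_sum, ← Polynomial.derivative_prod_finset]
    rw [Units.smul_def, Units.smul_def]
    simp
  rw [h1, Finset.sum_comm]
  apply Finset.sum_congr rfl
  intro c _
  rw [← Matrix.cramer_apply, Matrix.cramer_eq_adjugate_mulVec, Matrix.mulVec, dotProduct]
  apply Finset.sum_congr rfl
  intro a _
  ring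

end Jacobi

section Expansion

variable {R : Type*} [CommRing R] {ι κ : Type*} [Fintype ι] [DecidableEq ι] [DecidableEq κ]

/-- The multiaffine coefficient of `∏_{s ∈ I} x_s` in `det (M + ∑ x_s N_s)`. -/
def Dp (I : Finset κ) (M : Matrix ι ι R) (N : κ → Matrix ι ι R) : R :=
  ∑ J ∈ I.powerset, (-1) ^ (I.card - J.card) * det (M + ∑ s ∈ J, N s)

omit [DecidableEq κ] in
@[simp] theorem Dp_empty (M : Matrix ι ι R) (N : κ → Matrix ι ι R) :
    Dp ∅ M N = det M := by simp [Dp]

theorem Dp_insert {t : κ} {I : Finset κ} (ht : t ∉ I) (M : Matrix ι ι R)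
    (N : κ → Matrix ι ι R) : Dp (insert t I) M N = Dp I (M + N t) N - Dp I M N := by
  rw [Dp, Finset.sum_powerset_insert ht, Dp, Dp, add_comm, sub_eq_add_neg, ← Finset.sum_neg_distrib]
  congr 1
  · apply Finset.sum_congr rfl
    intro J hJ
    have hJI := Finset.mem_powerset.1 hJ
    have htJ : t ∉ J := fun h => ht (hJI h)
    rw [Finset.card_insert_of_notMem ht, Finset.card_insert_of_notMem htJ,
      Finset.sum_insert htJ, Nat.add_sub_add_right, add_assoc]
  · apply Finset.sum_congr rfl
    intro J hJ
    have hJI := Finset.mem_powerset.1 hJ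
    have hc := Finset.card_le_card hJI
    rw [Finset.card_insert_of_notMem ht, Nat.succ_sub hc, pow_succ]
    ring

/-- The coefficient matrix of the quadratic form `v ↦ Dp (insert t I) M N`, `N t = u v^T`. -/
def Ap (I : Finset κ) (M : Matrix ι ι R) (N : κ → Matrix ι ι R) (c a : ι) : R :=
  ∑ J ∈ I.powerset, (-1) ^ (I.card - J.card) * (M + ∑ s ∈ J, N s).adjugate c a

omit [DecidableEq κ] in
theorem Dp_add_vecMulVec (I : Finset κ) (M : Matrix ι ι R) (N : κ → Matrix ι ι R)
    (u v : ι → R) : Dp I (M + vecMulVec u v) N =
      Dp I M N + ∑ a, ∑ c, u a * v c * Ap I M N c a := by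
  have h1 : ∀ J : Finset κ, det (M + vecMulVec u v + ∑ s ∈ J, N s) =
      det (M + ∑ s ∈ J, N s) + ∑ a, ∑ c, u a * v c * (M + ∑ s ∈ J, N s).adjugate c a := by
    intro J
    have : M + vecMulVec u v + ∑ s ∈ J, N s = (M + ∑ s ∈ J, N s) + vecMulVec u v := by abel
    rw [this, det_add_vecMulVec]
  rw [Dp]
  simp_rw [h1, mul_add]
  rw [Finset.sum_add_distrib]
  congr 1
  simp_rw [Ap, Finset.mul_sum]
  rw [Finset.sum_comm]
  apply Finset.sum_congr rfl
  intro a _
  rw [Finset.sum_comm]
  apply Finset.sum_congr rfl
  intro c _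
  apply Finset.sum_congr rfl
  intro J _
  ring

theorem Dp_insert_vecMulVec {t : κ} {I : Finset κ} (ht : t ∉ I) (M : Matrix ι ι R)
    (N : κ → Matrix ι ι R) {u v : ι → R} (hN : N t = vecMulVec u v) :
    Dp (insert t I) M N = ∑ a, ∑ c, u a * v c * Ap I M N c a := by
  rw [Dp_insert ht, hN, Dp_add_vecMulVec]; ring

/-- The multiaffine expansion for rank one matrices. -/
theorem det_add_sum (N : κ → Matrix ι ι R) (hN : ∀ s, ∃ u v, N s = vecMulVec u v)
    (w : κ → R) (T : Finset κ) (M : Matrix ι ι R) :
    det (M + ∑ s ∈ T, w s • N s) = ∑ I ∈ T.powerset, (∏ s ∈ I, w s) * Dp I M N := by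
  induction T using Finset.induction_on generalizing M with
  | empty => simp
  | insert t T ht ih =>
    obtain ⟨u, v, huv⟩ := hN t
    have h1 : M + ∑ s ∈ insert t T, w s • N s = (M + w t • N t) + ∑ s ∈ T, w s • N s := by
      rw [Finset.sum_insert ht, add_assoc]
    rw [h1, ih, Finset.sum_powerset_insert ht, ← Finset.sum_add_distrib]
    apply Finset.sum_congr rfl
    intro I hI
    have htI : t ∉ I := fun h => ht (Finset.mem_powerset.1 hI h)
    rw [Finset.prod_insert htI, Dp_insert_vecMulVec htI M N huv]
    have h2 : w t • N t = vecMulVec (w t • u) v := by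
      rw [huv, Matrix.smul_vecMulVec]
    rw [h2, Dp_add_vecMulVec, mul_add]
    congr 1
    rw [Finset.mul_sum, Finset.mul_sum]
    apply Finset.sum_congr rfl
    intro a _
    rw [Finset.mul_sum, Finset.mul_sum]
    apply Finset.sum_congr rfl
    intro c _
    simp only [Pi.smul_apply, smul_eq_mul]
    ring

omit [DecidableEq κ] in
/-- `Dp` commutes with ring homomorphisms. -/
theorem Dp_map {S : Type*} [CommRing S] (f : R →+* S) (I : Finset κ) (M : Matrix ι ι R)
    (N : κ → Matrix ι ι R) : f (Dp I M N) = Dp I (M.map f) (fun s => (N s).map f) := by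
  rw [Dp, map_sum, Dp]
  apply Finset.sum_congr rfl
  intro J _
  rw [map_mul, map_pow, map_neg, map_one, RingHom.map_det]
  congr 2
  rw [RingHom.mapMatrix_apply, Matrix.map_add _ (map_add f)]
  congr 1
  ext a b
  simp [Matrix.sum_apply]

end Expansion

end Pool.H64.KB
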