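import Mathlib

/-!
# Functions with all moments, and independence of functions of disjoint coordinates
-/

namespace Pool.H64.KB

open MeasureTheory Finset ProbabilityTheory

section Mom

variable {Ω : Type*} [MeasurableSpace Ω] {P : Measure Ω}

/-- Measurable complex functions all of whose absolute moments are finite. -/
def Mom (P : Measure Ω) (g : Ω → ℂ) : Prop :=
  Measurable g ∧ ∀ n : ℕ, Integrable (fun ω => ‖g ω‖ ^ n) P

theorem Mom.integrable {g : Ω → ℂ} (h : Mom P g) : Integrable g P := by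
  have h1 := h.2 1
  simp only [pow_one] at h1
  exact (integrable_norm_iff h.1.aestronglyMeasurable).1 h1

theorem Mom.const [IsFiniteMeasure P] (c : ℂ) : Mom P (fun _ => c) :=
  ⟨measurable_const, fun _ => integrable_const _⟩

theorem Mom.star {g : Ω → ℂ} (h : Mom P g) : Mom P (fun ω => star (g ω)) := by
  refine ⟨continuous_star.measurable.comp h.1, fun n => ?_⟩
  simpa using h.2 n

theorem Mom.neg {g : Ω → ℂ} (h : Mom P g) : Mom P (fun ω => - g ω) := by
  refine ⟨h.1.neg, fun n => ?_⟩
  simpa using h.2 n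

theorem Mom.mul {g h : Ω → ℂ} (hg : Mom P g) (hh : Mom P h) : Mom P (fun ω => g ω * h ω) := by
  refine ⟨hg.1.mul hh.1, fun n => ?_⟩
  have h1 : Integrable (fun ω => ‖g ω‖ ^ (2 * n) + ‖h ω‖ ^ (2 * n)) P :=
    (hg.2 (2 * n)).add (hh.2 (2 * n))
  refine h1.mono' ((hg.1.mul hh.1).norm.pow_const n).aestronglyMeasurable ?_
  filter_upwards with ω
  rw [Real.norm_of_nonneg (by positivity), norm_mul, mul_pow]
  have e1 : ‖g ω‖ ^ (2 * n) = (‖g ω‖ ^ n) ^ 2 := by rw [← pow_mul, mul_comm]
  have e2 : ‖h ω‖ ^ (2 * n) = (‖h ω‖ ^ n) ^ 2 := by rw [← pow_mul, mul_comm]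
  rw [e1, e2]
  nlinarith [sq_nonneg (‖g ω‖ ^ n - ‖h ω‖ ^ n), sq_nonneg (‖g ω‖ ^ n), sq_nonneg (‖h ω‖ ^ n)]

theorem Mom.add {g h : Ω → ℂ} (hg : Mom P g) (hh : Mom P h) : Mom P (fun ω => g ω + h ω) := by
  refine ⟨hg.1.add hh.1, fun n => ?_⟩
  have h1 : Integrable (fun ω => 2 ^ (n - 1) * (‖g ω‖ ^ n + ‖h ω‖ ^ n)) P :=
    ((hg.2 n).add (hh.2 n)).const_mul _
  refine h1.mono' ((hg.1.add hh.1).norm.pow_const n).aestronglyMeasurable ?_
  filter_upwards with ω
  rw [Real.norm_of_nonneg (by positivity)]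
  calc ‖g ω + h ω‖ ^ n ≤ (‖g ω‖ + ‖h ω‖) ^ n :=
        pow_le_pow_left₀ (norm_nonneg _) (norm_add_le _ _) n
    _ ≤ _ := add_pow_le (norm_nonneg _) (norm_nonneg _) n

theorem Mom.sum [IsFiniteMeasure P] {α : Type*} (s : Finset α) {g : α → Ω → ℂ}
    (h : ∀ a ∈ s, Mom P (g a)) : Mom P (fun ω => ∑ a ∈ s, g a ω) := by
  classical
  induction s using Finset.induction_on with
  | empty => simpa using Mom.const (P := P) 0
  | insert a s ha ih =>
    simp_rw [Finset.sum_insert ha]
    exact (h a (Finset.mem_insert_self _ _)).add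
      (ih fun b hb => h b (Finset.mem_insert_of_mem hb))

theorem Mom.prod [IsFiniteMeasure P] {α : Type*} (s : Finset α) {g : α → Ω → ℂ}
    (h : ∀ a ∈ s, Mom P (g a)) : Mom P (fun ω => ∏ a ∈ s, g a ω) := by
  classical
  induction s using Finset.induction_on with
  | empty => simpa using Mom.const (P := P) 1
  | insert a s ha ih =>
    simp_rw [Finset.prod_insert ha]
    exact (h a (Finset.mem_insert_self _ _)).mul
      (ih fun b hb => h b (Finset.mem_insert_of_mem hb))

end Mom

section PMom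

open Polynomial Matrix

variable {Ω : Type*} [MeasurableSpace Ω] {P : Measure Ω} [IsFiniteMeasure P]

/-- Polynomial valued functions all of whose coefficients have all moments. -/
def PMom (P : Measure Ω) (g : Ω → ℂ[X]) : Prop := ∀ j, Mom P (fun ω => (g ω).coeff j)

theorem PMom.const (q : ℂ[X]) : PMom P (fun _ => q) := fun _ => Mom.const _

omit [IsFiniteMeasure P] in
theorem PMom.add {g h : Ω → ℂ[X]} (hg : PMom P g) (hh : PMom P h) :
    PMom P (fun ω => g ω + h ω) := by
  intro j
  simp_rw [Polynomial.coeff_add]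
  exact (hg j).add (hh j)

theorem PMom.mul {g h : Ω → ℂ[X]} (hg : PMom P g) (hh : PMom P h) :
    PMom P (fun ω => g ω * h ω) := by
  intro j
  simp_rw [Polynomial.coeff_mul]
  exact Mom.sum _ fun a _ => (hg a.1).mul (hh a.2)

theorem PMom.sum {α : Type*} (s : Finset α) {g : α → Ω → ℂ[X]}
    (h : ∀ a ∈ s, PMom P (g a)) : PMom P (fun ω => ∑ a ∈ s, g a ω) := by
  intro j
  simp_rw [Polynomial.finsetSum_coeff]
  exact Mom.sum _ fun a ha => h a ha j

theorem PMom.prod {α : Type*} (s : Finset α) {g : α → Ω → ℂ[X]}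
    (h : ∀ a ∈ s, PMom P (g a)) : PMom P (fun ω => ∏ a ∈ s, g a ω) := by
  classical
  induction s using Finset.induction_on with
  | empty => simpa using PMom.const (P := P) 1
  | insert a s ha ih =>
    simp_rw [Finset.prod_insert ha]
    exact (h a (Finset.mem_insert_self _ _)).mul
      (ih fun b hb => h b (Finset.mem_insert_of_mem hb))

theorem PMom.C {g : Ω → ℂ} (hg : Mom P g) : PMom P (fun ω => Polynomial.C (g ω)) := by
  intro j
  simp_rw [Polynomial.coeff_C]
  by_cases hj : j = 0
  · simpa [hj] using hg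
  · simpa [hj] using Mom.const (P := P) 0

theorem PMom.det {ι : Type*} [Fintype ι] [DecidableEq ι] {A : Ω → Matrix ι ι ℂ[X]}
    (h : ∀ a c, PMom P (fun ω => A ω a c)) : PMom P (fun ω => (A ω).det) := by
  simp_rw [Matrix.det_apply']
  apply PMom.sum
  intro σ _
  apply PMom.mul (PMom.const _)
  apply PMom.prod
  intro i _
  exact h _ _

theorem PMom.adjugate {ι : Type*} [Fintype ι] [DecidableEq ι] {A : Ω → Matrix ι ι ℂ[X]}
    (h : ∀ a c, PMom P (fun ω => A ω a c)) (a c : ι) :
    PMom P (fun ω => (A ω).adjugate a c) := by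
  simp_rw [Matrix.adjugate_apply]
  apply PMom.det
  intro x y
  by_cases hx : x = c
  · subst hx
    simp_rw [Matrix.updateRow_self]
    exact PMom.const _
  · simp_rw [Matrix.updateRow_ne hx]
    exact h x y

end PMom

section Indep

variable {E : Type*} [MeasurableSpace E] (μ : Measure E) [IsProbabilityMeasure μ]
  {κ : Type*} [Fintype κ] [DecidableEq κ]

/-- Measurable functions of disjoint sets of coordinates are independent. -/
theorem indepFun_of_dependsOn {α β : Type*} [MeasurableSpace α] [MeasurableSpace β]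
    {g : (κ → E) → α} {h : (κ → E) → β} (hg : Measurable g) (hh : Measurable h)
    {I J : Finset κ} (hIJ : Disjoint I J) (hgI : ∀ x y, (∀ s ∈ I, x s = y s) → g x = g y)
    (hhJ : ∀ x y, (∀ s ∈ J, x s = y s) → h x = h y) :
    IndepFun g h (Measure.pi (fun _ : κ => μ)) := by
  classical
  obtain ⟨x0⟩ : Nonempty E := nonempty_of_isProbabilityMeasure μ
  have hind : iIndepFun (fun (s : κ) (ω : κ → E) => ω s) (Measure.pi (fun _ : κ => μ)) := by
    have := iIndepFun_pi (μ := fun _ : κ => μ) (X := fun _ => (id : E → E))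
      (fun _ => aemeasurable_id)
    simpa using this
  have h1 := hind.indepFun_finset I J hIJ (fun s => measurable_pi_apply s)
  let ext : ∀ K : Finset κ, (K → E) → (κ → E) :=
    fun K y s => if hs : s ∈ K then y ⟨s, hs⟩ else x0
  have hext : ∀ K : Finset κ, Measurable (ext K) := by
    intro K
    rw [measurable_pi_iff]
    intro s
    by_cases hs : s ∈ K
    · simp only [ext, hs, dif_pos]
      exact measurable_pi_apply _
    · simp only [ext, hs, dif_neg, not_false_eq_true]
      exact measurable_const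
  have h2 := h1.comp (hg.comp (hext I)) (hh.comp (hext J))
  have e1 : (g ∘ ext I) ∘ (fun (a : κ → E) (i : I) => a i) = g := by
    funext ω
    apply hgI
    intro s hs
    simp [ext, hs]
  have e2 : (h ∘ ext J) ∘ (fun (a : κ → E) (i : J) => a i) = h := by
    funext ω
    apply hhJ
    intro s hs
    simp [ext, hs]
  rw [e1, e2] at h2
  exact h2

omit [DecidableEq κ] in
theorem Mom.eval {g : E → ℂ} (hg : Mom μ g) (s : κ) :
    Mom (Measure.pi (fun _ : κ => μ)) (fun ω => g (ω s)) := by
  refine ⟨hg.1.comp (measurable_pi_apply s), fun n => ?_⟩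
  have h1 := measurePreserving_eval (fun _ : κ => μ) s
  exact (h1.integrable_comp (hg.2 n).aestronglyMeasurable).2 (hg.2 n)

omit [DecidableEq κ] in
theorem integral_eval {g : E → ℂ} (hg : Measurable g) (s : κ) :
    ∫ ω, g (ω s) ∂(Measure.pi (fun _ : κ => μ)) = ∫ x, g x ∂μ := by
  have h1 := (measurePreserving_eval (fun _ : κ => μ) s).map_eq
  have h2 := integral_map (μ := Measure.pi (fun _ : κ => μ)) (φ := Function.eval s) (f := g)
    (measurable_pi_apply s).aemeasurable hg.aestronglyMeasurable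
  rw [h1] at h2
  exact h2.symm

end Indep

end Pool.H64.KB
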