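import Pool.Agent.H64.KB.DetExp
import Pool.Agent.H64.KB.Mom
import Pool.Agent.H64.KB.Idx

/-!
# Expectation of a determinant of a sum of independent rank one matrices (module V2 of THEOREM K')

`E det (M₀ + ∑ w_s v_s v_s^*)` for independent vectors with covariance `b`, in terms of the
polynomial `det (M₀ + X b)`; the bound of the integral over an event `B` which for every small
index set `I` lies in an event of probability `≤ p` depending on the coordinates outside `I`.
-/

namespace Pool.H64.KB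

open MeasureTheory Finset ProbabilityTheory Matrix Polynomial

section Defs

variable {E : Type*} {ι : Type*}

/-- The rank one matrix `f x (f x)^*`. -/
def rk (f : E → ι → ℂ) (x : E) : Matrix ι ι ℂ := vecMulVec (f x) (star (f x))

/-- The same as a matrix of constant polynomials. -/
noncomputable def rkP (f : E → ι → ℂ) (x : E) : Matrix ι ι ℂ[X] :=
  vecMulVec (fun a => C (f x a)) (fun c => C (star (f x c)))

theorem rkP_eq (f : E → ι → ℂ) (x : E) : rkP f x = (rk f x).map C := by
  ext a c : 2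
  simp [rkP, rk, vecMulVec_apply]

/-- `v = f x` has all moments and covariance matrix `b`. -/
structure Vec [MeasurableSpace E] (μ : Measure E) (f : E → ι → ℂ) (b : Matrix ι ι ℂ) : Prop where
  mom : ∀ a, Mom μ (fun x => f x a)
  cov : ∀ a c, ∫ x, f x a * star (f x c) ∂μ = b a c

end Defs

section Main

set_option linter.unusedSectionVars false

variable {E : Type*} [MeasurableSpace E] {μ : Measure E} [IsProbabilityMeasure μ]
  {κ : Type*} [Fintype κ] [DecidableEq κ] {ι : Type*} [Fintype ι] [DecidableEq ι]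
  {f : E → ι → ℂ} {b : Matrix ι ι ℂ}

omit [DecidableEq κ] in
theorem pmom_entry (hf : ∀ a, Mom μ (fun x => f x a)) (M : Matrix ι ι ℂ[X]) (J : Finset κ)
    (a c : ι) : PMom (Measure.pi (fun _ : κ => μ))
      (fun ω => (M + ∑ s ∈ J, rkP f (ω s)) a c) := by
  have : ∀ ω : κ → E, (M + ∑ s ∈ J, rkP f (ω s)) a c =
      M a c + ∑ s ∈ J, C (f (ω s) a) * C (star (f (ω s) c)) := by
    intro ω
    simp [Matrix.add_apply, Matrix.sum_apply, rkP, vecMulVec_apply]
  simp_rw [this]
  apply PMom.add (PMom.const _)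
  apply PMom.sum
  intro s _
  exact PMom.mul (PMom.C ((hf a).eval μ s)) (PMom.C ((hf c).eval μ s).star)

omit [DecidableEq κ] in
theorem pmom_Dp (hf : ∀ a, Mom μ (fun x => f x a)) (M : Matrix ι ι ℂ[X]) (I : Finset κ) :
    PMom (Measure.pi (fun _ : κ => μ)) (fun ω => Dp I M (fun s => rkP f (ω s))) := by
  unfold Dp
  apply PMom.sum
  intro J _
  exact PMom.mul (PMom.const _) (PMom.det (pmom_entry hf M J))

omit [DecidableEq κ] in
theorem pmom_Ap (hf : ∀ a, Mom μ (fun x => f x a)) (M : Matrix ι ι ℂ[X]) (I : Finset κ)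
    (c a : ι) :
    PMom (Measure.pi (fun _ : κ => μ)) (fun ω => Ap I M (fun s => rkP f (ω s)) c a) := by
  unfold Ap
  apply PMom.sum
  intro J _
  exact PMom.mul (PMom.const _) (PMom.adjugate (pmom_entry hf M J) c a)

/-- Integration over one coordinate which does not occur. -/
theorem integral_mul_outside {g : E → ℂ} (hg : Measurable g) {I : Finset κ} {t : κ} (ht : t ∉ I)
    {h : (κ → E) → ℂ} (hh : Measurable h) (hI : ∀ x y, (∀ s ∈ I, x s = y s) → h x = h y) :
    ∫ ω, g (ω t) * h ω ∂(Measure.pi (fun _ : κ => μ)) =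
      (∫ x, g x ∂μ) * ∫ ω, h ω ∂(Measure.pi (fun _ : κ => μ)) := by
  have hgt : Measurable (fun ω : κ → E => g (ω t)) := hg.comp (measurable_pi_apply t)
  have hind : IndepFun (fun ω : κ → E => g (ω t)) h (Measure.pi (fun _ : κ => μ)) := by
    apply indepFun_of_dependsOn μ hgt hh (I := {t}) (J := I)
    · rw [Finset.disjoint_singleton_left]; exact ht
    · intro x y hxy
      rw [hxy t (Finset.mem_singleton_self t)]
    · exact hI
  rw [hind.integral_fun_mul_eq_mul_integral hgt.aestronglyMeasurable hh.aestronglyMeasurable,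
    integral_eval μ hg]

omit [Fintype κ] [DecidableEq κ] in
theorem Dp_congr {M : Matrix ι ι ℂ[X]} {I : Finset κ} {x y : κ → E}
    (h : ∀ s ∈ I, x s = y s) :
    Dp I M (fun s => rkP f (x s)) = Dp I M (fun s => rkP f (y s)) := by
  unfold Dp
  apply Finset.sum_congr rfl
  intro J hJ
  have hs : ∑ s ∈ J, (fun s => rkP f (x s)) s = ∑ s ∈ J, (fun s => rkP f (y s)) s := by
    apply Finset.sum_congr rfl
    intro s hs
    change rkP f (x s) = rkP f (y s)
    rw [h s (Finset.mem_powerset.1 hJ hs)]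
  rw [hs]

omit [Fintype κ] [DecidableEq κ] in
theorem Ap_congr {M : Matrix ι ι ℂ[X]} {I : Finset κ} {x y : κ → E}
    (h : ∀ s ∈ I, x s = y s) (c a : ι) :
    Ap I M (fun s => rkP f (x s)) c a = Ap I M (fun s => rkP f (y s)) c a := by
  unfold Ap
  apply Finset.sum_congr rfl
  intro J hJ
  have hs : ∑ s ∈ J, (fun s => rkP f (x s)) s = ∑ s ∈ J, (fun s => rkP f (y s)) s := by
    apply Finset.sum_congr rfl
    intro s hs
    change rkP f (x s) = rkP f (y s)
    rw [h s (Finset.mem_powerset.1 hJ hs)]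
  rw [hs]

/-- One vector at a time. -/
theorem integral_Dp_insert (hf : ∀ a, Mom μ (fun x => f x a)) {g : E → ℂ} (hg : Mom μ g)
    (M : Matrix ι ι ℂ[X]) {I : Finset κ} {t : κ} (ht : t ∉ I) (j : ℕ) :
    ∫ ω, g (ω t) * (Dp (insert t I) M (fun s => rkP f (ω s))).coeff j
        ∂(Measure.pi (fun _ : κ => μ)) =
      ∑ a, ∑ c, (∫ x, g x * (f x a * star (f x c)) ∂μ) *
        ∫ ω, (Ap I M (fun s => rkP f (ω s)) c a).coeff j ∂(Measure.pi (fun _ : κ => μ)) := by
  have h1 : ∀ ω : κ → E, g (ω t) * (Dp (insert t I) M (fun s => rkP f (ω s))).coeff j =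
      ∑ a, ∑ c, (g (ω t) * (f (ω t) a * star (f (ω t) c))) *
        (Ap I M (fun s => rkP f (ω s)) c a).coeff j := by
    intro ω
    rw [Dp_insert_vecMulVec ht M (fun s => rkP f (ω s))
      (u := fun a => C (f (ω t) a)) (v := fun c => C (star (f (ω t) c))) rfl,
      Polynomial.finsetSum_coeff, Finset.mul_sum]
    apply Finset.sum_congr rfl
    intro a _
    rw [Polynomial.finsetSum_coeff, Finset.mul_sum]
    apply Finset.sum_congr rfl
    intro c _
    rw [← Polynomial.C_mul, Polynomial.coeff_C_mul]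
    ring
  simp_rw [h1]
  have hterm : ∀ a c, Mom μ (fun x => g x * (f x a * star (f x c))) := fun a c =>
    hg.mul ((hf a).mul (hf c).star)
  have hint : ∀ a c, Integrable (fun ω : κ → E => (g (ω t) * (f (ω t) a * star (f (ω t) c))) *
        (Ap I M (fun s => rkP f (ω s)) c a).coeff j) (Measure.pi (fun _ : κ => μ)) :=
    fun a c => (((hterm a c).eval μ t).mul (pmom_Ap hf M I c a j)).integrable
  rw [integral_finsetSum _ (fun a _ => integrable_finsetSum _ (fun c _ => hint a c))]
  apply Finset.sum_congr rfl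
  intro a _
  rw [integral_finsetSum _ (fun c _ => hint a c)]
  apply Finset.sum_congr rfl
  intro c _
  exact integral_mul_outside (g := fun x => g x * (f x a * star (f x c))) (hterm a c).1 ht
    (pmom_Ap hf M I c a j).1 (fun x y hxy => by rw [Ap_congr hxy])

omit [Fintype κ] [DecidableEq κ] in
/-- The derivative of `Dp`. -/
theorem derivative_Dp (M : Matrix ι ι ℂ[X]) (hM : ∀ a c, derivative (M a c) = C (b a c))
    (I : Finset κ) (ω : κ → E) :
    derivative (Dp I M (fun s => rkP f (ω s))) =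
      ∑ a, ∑ c, C (b a c) * Ap I M (fun s => rkP f (ω s)) c a := by
  have h1 : ∀ (J : Finset κ) (a c : ι),
      derivative ((M + ∑ s ∈ J, rkP f (ω s)) a c) = C (b a c) := by
    intro J a c
    have : (M + ∑ s ∈ J, rkP f (ω s)) a c =
        M a c + ∑ s ∈ J, C (f (ω s) a * star (f (ω s) c)) := by
      simp [Matrix.add_apply, Matrix.sum_apply, rkP, vecMulVec_apply]
    rw [this, derivative_add, hM, derivative_sum]
    simp only [derivative_C, Finset.sum_const_zero, add_zero]
  unfold Dp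
  rw [derivative_sum]
  have h2 : ∀ J : Finset κ, derivative ((-1 : ℂ[X]) ^ (I.card - J.card) *
      det (M + ∑ s ∈ J, rkP f (ω s))) = ∑ a, ∑ c, C (b a c) *
        ((-1) ^ (I.card - J.card) * (M + ∑ s ∈ J, rkP f (ω s)).adjugate c a) := by
    intro J
    have e1 : ((-1 : ℂ[X]) ^ (I.card - J.card)) = C ((-1) ^ (I.card - J.card)) := by
      simp
    rw [e1, derivative_C_mul, derivative_det, Finset.mul_sum]
    apply Finset.sum_congr rfl
    intro a _
    rw [Finset.mul_sum]
    apply Finset.sum_congr rfl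
    intro c _
    rw [h1]; ring
  simp_rw [h2]
  rw [Finset.sum_comm]
  apply Finset.sum_congr rfl
  intro a _
  rw [Finset.sum_comm]
  apply Finset.sum_congr rfl
  intro c _
  rw [Ap, Finset.mul_sum]

/-- One vector at a time, covariance form. -/
theorem integral_coeff_derivative (h : Vec μ f b) (M : Matrix ι ι ℂ[X])
    (hM : ∀ a c, derivative (M a c) = C (b a c)) (I : Finset κ) (j : ℕ) :
    ∫ ω, (derivative (Dp I M (fun s => rkP f (ω s)))).coeff j ∂(Measure.pi (fun _ : κ => μ)) =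
      ∑ a, ∑ c, b a c *
        ∫ ω, (Ap I M (fun s => rkP f (ω s)) c a).coeff j ∂(Measure.pi (fun _ : κ => μ)) := by
  have h1 : ∀ ω : κ → E, (derivative (Dp I M (fun s => rkP f (ω s)))).coeff j =
      ∑ a, ∑ c, b a c * (Ap I M (fun s => rkP f (ω s)) c a).coeff j := by
    intro ω
    rw [derivative_Dp M hM I ω, Polynomial.finsetSum_coeff]
    apply Finset.sum_congr rfl
    intro a _
    rw [Polynomial.finsetSum_coeff]
    apply Finset.sum_congr rfl
    intro c _
    rw [Polynomial.coeff_C_mul]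
  simp_rw [h1]
  have hint : ∀ a c, Integrable (fun ω : κ → E => b a c *
        (Ap I M (fun s => rkP f (ω s)) c a).coeff j) (Measure.pi (fun _ : κ => μ)) :=
    fun a c => ((pmom_Ap h.mom M I c a j).integrable).const_mul _
  rw [integral_finsetSum _ (fun a _ => integrable_finsetSum _ (fun c _ => hint a c))]
  apply Finset.sum_congr rfl
  intro a _
  rw [integral_finsetSum _ (fun c _ => hint a c)]
  apply Finset.sum_congr rfl
  intro c _
  rw [integral_const_mul]

/-- `E D_I = (d/dX)^|I| det M`, coefficientwise. -/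
theorem integral_Dp_coeff (h : Vec μ f b) (M : Matrix ι ι ℂ[X])
    (hM : ∀ a c, derivative (M a c) = C (b a c)) (I : Finset κ) (j : ℕ) :
    ∫ ω, (Dp I M (fun s => rkP f (ω s))).coeff j ∂(Measure.pi (fun _ : κ => μ)) =
      (derivative^[I.card] (det M)).coeff j := by
  induction I using Finset.induction_on generalizing j with
  | empty => simp
  | insert t I ht ih =>
    have h1 := integral_Dp_insert h.mom (Mom.const (P := μ) 1) M ht j
    simp only [one_mul] at h1
    rw [h1]
    simp_rw [h.cov]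
    rw [← integral_coeff_derivative h M hM I j, Finset.card_insert_of_notMem ht,
      Function.iterate_succ_apply', Polynomial.coeff_derivative]
    simp_rw [Polynomial.coeff_derivative]
    rw [integral_mul_const, ih]

/-- The matrix `M₀ + X b`. -/
noncomputable def pm (M₀ b : Matrix ι ι ℂ) : Matrix ι ι ℂ[X] :=
  (X : ℂ[X]) • b.map C + M₀.map C

omit [Fintype ι] [DecidableEq ι] in
theorem derivative_pm (M₀ b : Matrix ι ι ℂ) (a c : ι) :
    derivative (pm M₀ b a c) = C (b a c) := by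
  simp [pm]

theorem coeff_pm_eq_zero (M₀ b : Matrix ι ι ℂ) {i : ℕ} (hi : Fintype.card ι < i) :
    (det (pm M₀ b)).coeff i = 0 :=
  Polynomial.coeff_eq_zero_of_natDegree_lt
    (lt_of_le_of_lt (natDegree_det_X_add_C_le b M₀) hi)

omit [Fintype κ] [DecidableEq κ] in
theorem Dp_pm_coeff_zero (M₀ b : Matrix ι ι ℂ) (I : Finset κ) (ω : κ → E) :
    (Dp I (pm M₀ b) (fun s => rkP f (ω s))).coeff 0 = Dp I M₀ (fun s => rk f (ω s)) := by
  have h1 := Dp_map (Polynomial.evalRingHom (0 : ℂ)) I (pm M₀ b) (fun s => rkP f (ω s))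
  rw [Polynomial.coe_evalRingHom, ← Polynomial.coeff_zero_eq_eval_zero] at h1
  rw [h1]
  congr 1
  · ext a c
    simp [pm]
  · funext s
    rw [rkP_eq]
    ext a c
    simp

/-- `E D_I = |I|! [X ^ |I|] det (M₀ + X b)`. -/
theorem integral_Dp (h : Vec μ f b) (M₀ : Matrix ι ι ℂ) (I : Finset κ) :
    ∫ ω, Dp I M₀ (fun s => rk f (ω s)) ∂(Measure.pi (fun _ : κ => μ)) =
      (I.card.factorial : ℂ) * (det (pm M₀ b)).coeff I.card := by
  have h1 := integral_Dp_coeff h (pm M₀ b) (derivative_pm M₀ b) I 0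
  simp_rw [Dp_pm_coeff_zero] at h1
  rw [h1, Polynomial.coeff_iterate_derivative, zero_add, Nat.descFactorial_self, nsmul_eq_mul]

omit [DecidableEq κ] in
theorem mom_Dp (hf : ∀ a, Mom μ (fun x => f x a)) (M₀ : Matrix ι ι ℂ) (I : Finset κ) :
    Mom (Measure.pi (fun _ : κ => μ)) (fun ω => Dp I M₀ (fun s => rk f (ω s))) := by
  have h1 := pmom_Dp (κ := κ) hf (pm M₀ 0) I 0
  simp_rw [Dp_pm_coeff_zero] at h1
  exact h1

/-- With an additional weight `q` on the coordinates. -/
theorem integral_q_Dp (h : Vec μ f b) {q : E → ℂ} (hq : Mom μ q) {c₀ c₁ : ℂ}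
    (h0 : ∫ x, q x ∂μ = c₀) (h1 : ∀ a c, ∫ x, q x * (f x a * star (f x c)) ∂μ = c₁ * b a c)
    (M₀ : Matrix ι ι ℂ) (I : Finset κ) :
    ∫ ω, (∑ s, q (ω s)) * Dp I M₀ (fun s => rk f (ω s)) ∂(Measure.pi (fun _ : κ => μ)) =
      (c₁ * I.card + c₀ * (Fintype.card κ - I.card)) *
        ((I.card.factorial : ℂ) * (det (pm M₀ b)).coeff I.card) := by
  have hsum : ∀ ω : κ → E, (∑ s, q (ω s)) * Dp I M₀ (fun s => rk f (ω s)) =
      ∑ s, q (ω s) * Dp I M₀ (fun s => rk f (ω s)) := by
    intro ω; rw [Finset.sum_mul]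
  simp_rw [hsum]
  rw [integral_finsetSum _ (fun s _ => ((hq.eval μ s).mul (mom_Dp h.mom M₀ I)).integrable)]
  have hin : ∀ s ∈ I, ∫ ω, q (ω s) * Dp I M₀ (fun s => rk f (ω s))
      ∂(Measure.pi (fun _ : κ => μ)) =
        c₁ * ((I.card.factorial : ℂ) * (det (pm M₀ b)).coeff I.card) := by
    intro s hs
    obtain ⟨I', hI', rfl⟩ : ∃ I', s ∉ I' ∧ insert s I' = I :=
      ⟨I.erase s, Finset.notMem_erase s I, Finset.insert_erase hs⟩
    rw [← integral_Dp h M₀ (insert s I')]
    have e1 := integral_Dp_insert h.mom hq (pm M₀ b) hI' 0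
    have e2 := integral_Dp_insert h.mom (Mom.const (P := μ) 1) (pm M₀ b) hI' 0
    simp only [one_mul] at e2
    simp_rw [Dp_pm_coeff_zero] at e1 e2
    rw [e1, e2]
    simp_rw [h1, h.cov]
    rw [Finset.mul_sum]
    apply Finset.sum_congr rfl
    intro a _
    rw [Finset.mul_sum]
    apply Finset.sum_congr rfl
    intro c _
    ring
  have hout : ∀ s ∉ I, ∫ ω, q (ω s) * Dp I M₀ (fun s => rk f (ω s))
      ∂(Measure.pi (fun _ : κ => μ)) =
        c₀ * ((I.card.factorial : ℂ) * (det (pm M₀ b)).coeff I.card) := by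
    intro s hs
    rw [← integral_Dp h M₀ I, ← h0]
    apply integral_mul_outside hq.1 hs (mom_Dp h.mom M₀ I).1
    intro x y hxy
    rw [← Dp_pm_coeff_zero M₀ b I x, ← Dp_pm_coeff_zero M₀ b I y, Dp_congr hxy]
  rw [← Finset.sum_add_sum_compl I, Finset.sum_congr rfl hin]
  rw [Finset.sum_congr rfl (fun s hs => hout s (Finset.mem_compl.1 hs))]
  rw [Finset.sum_const, Finset.sum_const, Finset.card_compl, nsmul_eq_mul, nsmul_eq_mul,
    Nat.cast_sub (Finset.card_le_univ I)]
  ring

omit [DecidableEq κ] in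
theorem rk_rank_one (ω : κ → E) (s : κ) : ∃ u v, rk f (ω s) = vecMulVec u v :=
  ⟨_, _, rfl⟩

/-- (a) The expectation of `det (M₀ + ∑ w_s v_s v_s^*)`. -/
theorem integral_det (h : Vec μ f b) (M₀ : Matrix ι ι ℂ) (w : κ → ℂ) :
    ∫ ω, det (M₀ + ∑ s, w s • rk f (ω s)) ∂(Measure.pi (fun _ : κ => μ)) =
      ∑ I : Finset κ, (∏ s ∈ I, w s) *
        ((I.card.factorial : ℂ) * (det (pm M₀ b)).coeff I.card) := by
  have h1 : ∀ ω : κ → E, det (M₀ + ∑ s, w s • rk f (ω s)) =
      ∑ I : Finset κ, (∏ s ∈ I, w s) * Dp I M₀ (fun s => rk f (ω s)) := by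
    intro ω
    rw [det_add_sum (fun s => rk f (ω s)) (rk_rank_one ω) w univ M₀, Finset.powerset_univ]
  simp_rw [h1]
  rw [integral_finsetSum _ (fun I _ => ((mom_Dp h.mom M₀ I).integrable).const_mul _)]
  apply Finset.sum_congr rfl
  intro I _
  rw [integral_const_mul, integral_Dp h]

/-- (c) The same with the weight `∑ q`. -/
theorem integral_q_det (h : Vec μ f b) {q : E → ℂ} (hq : Mom μ q) {c₀ c₁ : ℂ}
    (h0 : ∫ x, q x ∂μ = c₀) (h1 : ∀ a c, ∫ x, q x * (f x a * star (f x c)) ∂μ = c₁ * b a c)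
    (M₀ : Matrix ι ι ℂ) (w : κ → ℂ) :
    ∫ ω, (∑ s, q (ω s)) * det (M₀ + ∑ s, w s • rk f (ω s)) ∂(Measure.pi (fun _ : κ => μ)) =
      ∑ I : Finset κ, (∏ s ∈ I, w s) * ((c₁ * I.card + c₀ * (Fintype.card κ - I.card)) *
        ((I.card.factorial : ℂ) * (det (pm M₀ b)).coeff I.card)) := by
  have h2 : ∀ ω : κ → E, (∑ s, q (ω s)) * det (M₀ + ∑ s, w s • rk f (ω s)) =
      ∑ I : Finset κ, (∏ s ∈ I, w s) * ((∑ s, q (ω s)) * Dp I M₀ (fun s => rk f (ω s))) := by
    intro ω
    rw [det_add_sum (fun s => rk f (ω s)) (rk_rank_one ω) w univ M₀, Finset.powerset_univ,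
      Finset.mul_sum]
    apply Finset.sum_congr rfl
    intro I _
    ring
  simp_rw [h2]
  have hqs : Mom (Measure.pi (fun _ : κ => μ)) (fun ω => ∑ s, q (ω s)) :=
    Mom.sum _ fun s _ => hq.eval μ s
  rw [integral_finsetSum _
    (fun I _ => ((hqs.mul (mom_Dp h.mom M₀ I)).integrable).const_mul _)]
  apply Finset.sum_congr rfl
  intro I _
  rw [integral_const_mul, integral_q_Dp h hq h0 h1]

end Main

end Pool.H64.KB
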