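import Pool.Agent.H64.KB.Gauss

/-!
# The four integrals of the volume bound (module V4a of THEOREM K')

`Y` is a finite measure space with a bounded measurable field of matrices `S` such that
`∫ det (x + y S^* S) = δ (x + y D)^n` for all real `x, y`.
-/

namespace Pool.H64.KB

open MeasureTheory Finset ProbabilityTheory Matrix Polynomial
open scoped ComplexOrder

section General

variable {Y : Type*} [MeasurableSpace Y] {ν : Measure Y} [IsFiniteMeasure ν]

theorem Mom.of_bdd {g : Y → ℂ} (hg : Measurable g) {B : ℝ} (hB : ∀ z, ‖g z‖ ≤ B) : Mom ν g := by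
  refine ⟨hg, fun n => ?_⟩
  refine (integrable_const (B ^ n)).mono' (hg.norm.pow_const n).aestronglyMeasurable ?_
  filter_upwards with z
  rw [Real.norm_of_nonneg (by positivity)]
  exact pow_le_pow_left₀ (norm_nonneg _) (hB z) n

end General

section Main

set_option linter.unusedSectionVars false

variable {Y : Type*} [MeasurableSpace Y] {ν : Measure Y} [IsFiniteMeasure ν]
  {ι : Type*} [Fintype ι] [DecidableEq ι] {S : Y → Matrix ι ι ℂ} {δ D : ℝ}

theorem det_conj_mul_re (S : Matrix ι ι ℂ) : (Sᴴ * S).det.re = ‖S.det‖ ^ 2 := by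
  rw [Matrix.det_mul, Matrix.det_conjTranspose]
  have : star S.det * S.det = ((‖S.det‖ ^ 2 : ℝ) : ℂ) := by
    rw [← Complex.normSq_eq_norm_sq, Complex.normSq_eq_conj_mul_self]; rfl
  rw [this, Complex.ofReal_re]

/-- (E1) -/
theorem integral_norm_det_sq
    (hch : ∀ x y : ℝ, ∫ z, ((x : ℂ) • (1 : Matrix ι ι ℂ) + (y : ℂ) • ((S z)ᴴ * S z)).det.re ∂ν =
      δ * (x + y * D) ^ Fintype.card ι) :
    ∫ z, ‖(S z).det‖ ^ 2 ∂ν = δ * D ^ Fintype.card ι := by
  have h1 := hch 0 1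
  simp only [Complex.ofReal_zero, zero_smul, zero_add, Complex.ofReal_one, one_smul,
    one_mul] at h1
  simp_rw [det_conj_mul_re] at h1
  exact h1

theorem mom_SS (hS : ∀ i j, Mom ν (fun z => S z i j)) (a c : ι) :
    Mom ν (fun z => ((S z)ᴴ * S z) a c) := by
  have : ∀ z, ((S z)ᴴ * S z) a c = ∑ i, star (S z i a) * S z i c := by
    intro z
    rw [Matrix.mul_apply]
    rfl
  simp_rw [this]
  exact Mom.sum _ fun i _ => (hS i a).star.mul (hS i c)

/-- The deterministic part `a S^* S + c`. -/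
noncomputable def M0 (a c : ℝ) (S : Matrix ι ι ℂ) : Matrix ι ι ℂ :=
  (a : ℂ) • (Sᴴ * S) + (c : ℂ) • 1

theorem M0_posSemidef {a c : ℝ} (ha : 0 ≤ a) (hc : 0 ≤ c) (S : Matrix ι ι ℂ) :
    (M0 a c S).PosSemidef := by
  apply Matrix.PosSemidef.add
  · apply (Matrix.posSemidef_conjTranspose_mul_self S).smul
    rw [Complex.zero_le_real]; exact ha
  · apply Matrix.PosSemidef.one.smul
    rw [Complex.zero_le_real]; exact hc

theorem integrable_coeff (hS : ∀ i j, Mom ν (fun z => S z i j)) (a c : ℝ) (i : ℕ) :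
    Integrable (fun z => ((det (pm (M0 a c (S z)) ((S z)ᴴ * S z))).coeff i).re) ν := by
  have h1 : PMom ν (fun z => det (pm (M0 a c (S z)) ((S z)ᴴ * S z))) := by
    apply PMom.det
    intro x y
    have : ∀ z, pm (M0 a c (S z)) ((S z)ᴴ * S z) x y =
        X * C (((S z)ᴴ * S z) x y) + (C (a : ℂ) * C (((S z)ᴴ * S z) x y) +
          C ((c : ℂ) * (1 : Matrix ι ι ℂ) x y)) := by
      intro z
      simp only [pm, M0, Matrix.add_apply, Matrix.smul_apply, Matrix.map_apply, smul_eq_mul,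
        map_add, map_mul]
    simp_rw [this]
    exact ((PMom.const _).mul (PMom.C (mom_SS hS x y))).add
      (((PMom.const _).mul (PMom.C (mom_SS hS x y))).add (PMom.const _))
  exact (h1 i).integrable.re

/-- The integral of the coefficients. -/
theorem integral_coeff (hS : ∀ i j, Mom ν (fun z => S z i j))
    (hch : ∀ x y : ℝ, ∫ z, ((x : ℂ) • (1 : Matrix ι ι ℂ) + (y : ℂ) • ((S z)ᴴ * S z)).det.re ∂ν =
      δ * (x + y * D) ^ Fintype.card ι) (a c : ℝ) {i : ℕ} (hi : i ≤ Fintype.card ι) :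
    ∫ z, ((det (pm (M0 a c (S z)) ((S z)ᴴ * S z))).coeff i).re ∂ν =
      δ * ((Fintype.card ι).choose i * D ^ i * (c + a * D) ^ (Fintype.card ι - i)) := by
  set n := Fintype.card ι with hn
  set Q : ℝ[X] := ∑ j ∈ range (n + 1), C (δ * (n.choose j * D ^ j * (c + a * D) ^ (n - j))) * X ^ j
    with hQ
  have h1 : ∀ y : ℝ, ∫ z, (det (M0 a c (S z) + (y : ℂ) • ((S z)ᴴ * S z))).re ∂ν = Q.eval y := by
    intro y
    have e1 : ∀ z, M0 a c (S z) + (y : ℂ) • ((S z)ᴴ * S z) =
        (c : ℂ) • (1 : Matrix ι ι ℂ) + ((a + y : ℝ) : ℂ) • ((S z)ᴴ * S z) := by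
      intro z
      rw [M0]
      push_cast
      rw [add_smul]; abel
    simp_rw [e1]
    rw [hch]
    have e2 : c + (a + y) * D = y * D + (c + a * D) := by ring
    rw [e2, add_pow, hQ, Polynomial.eval_finsetSum, Finset.mul_sum]
    apply Finset.sum_congr rfl
    intro j _
    simp only [Polynomial.eval_mul, Polynomial.eval_C, Polynomial.eval_pow, Polynomial.eval_X]
    ring
  have h2 := integral_coeff_pm ν (fun z => M0 a c (S z)) (fun z => (S z)ᴴ * S z)
    (integrable_coeff hS a c) Q h1 i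
  rw [h2, hQ, Polynomial.finsetSum_coeff, Finset.sum_eq_single i]
  · rw [Polynomial.coeff_C_mul, Polynomial.coeff_X_pow, if_pos rfl, mul_one]
  · intro j _ hj
    rw [Polynomial.coeff_C_mul, Polynomial.coeff_X_pow, if_neg (fun h => hj h.symm), mul_zero]
  · intro h; exact absurd (Finset.mem_range.2 (Nat.lt_succ_of_le hi)) h

variable {γ : Measure ℂ} [IsProbabilityMeasure γ] {κ : Type*} [Fintype κ] [DecidableEq κ]

/-- `W = ∑ w_s conj(ζ_s) ζ_s^T`. -/
noncomputable def Wm (w : κ → ℝ) (ζ : κ → ι → ℂ) : Matrix ι ι ℂ :=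
  ∑ s, (w s : ℂ) • vecMulVec (star (ζ s)) (ζ s)

theorem form_eq (w : κ → ℝ) (a c : ℝ) (S : Matrix ι ι ℂ) (ζ : κ → ι → ℂ) :
    Sᴴ * (Wm w ζ + (a : ℂ) • (1 : Matrix ι ι ℂ)) * S + (c : ℂ) • 1 =
      M0 a c S + ∑ s, (w s : ℂ) • rk (fS S) (ζ s) := by
  rw [← sum_rk_fS, M0, Wm, Matrix.mul_add, Matrix.add_mul, Matrix.mul_smul, Matrix.mul_one,
    Matrix.smul_mul]
  abel

theorem Wm_eq (w : κ → ℝ) (ζ : κ → ι → ℂ) :
    Wm w ζ = 0 + ∑ s, (w s : ℂ) • rk (fS (1 : Matrix ι ι ℂ)) (ζ s) := by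
  rw [← sum_rk_fS, Matrix.conjTranspose_one, Matrix.one_mul, Matrix.mul_one, zero_add, Wm]

theorem det_pm_zero_one : det (pm (0 : Matrix ι ι ℂ) 1) = X ^ Fintype.card ι := by
  have : pm (0 : Matrix ι ι ℂ) 1 = (X : ℂ[X]) • (1 : Matrix ι ι ℂ[X]) := by
    ext a c : 2
    by_cases h : a = c
    · subst h; simp [pm]
    · simp [pm, h]
  rw [this, Matrix.det_smul, Matrix.det_one, mul_one]

/-- `e_i (w)`. -/
noncomputable def esy (w : κ → ℝ) (i : ℕ) : ℝ := ∑ I ∈ powersetCard i (univ : Finset κ), ∏ s ∈ I, w s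

theorem vec_one (h : StdC γ) :
    Vec (Measure.pi (fun _ : ι => γ)) (fS (1 : Matrix ι ι ℂ)) 1 := by
  have h1 := vec_fS (ι := ι) h 1
  rwa [Matrix.conjTranspose_one, Matrix.one_mul] at h1

theorem sum_card_eq (w : κ → ℝ) (n : ℕ) (F : ℕ → ℝ) (hF : ∀ i, i ≠ n → F i = 0) :
    ∑ I : Finset κ, (∏ s ∈ I, w s) * F I.card = esy w n * F n := by
  rw [esy, Finset.sum_mul, ← Finset.powerset_univ]
  symm
  have hsub : powersetCard n (univ : Finset κ) ⊆ powerset univ := fun I _ => by simp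
  have h1 : ∑ I ∈ powersetCard n (univ : Finset κ), (∏ s ∈ I, w s) * F n =
      ∑ I ∈ powersetCard n (univ : Finset κ), (∏ s ∈ I, w s) * F I.card := by
    apply Finset.sum_congr rfl
    intro I hI
    rw [(Finset.mem_powersetCard.1 hI).2]
  rw [h1]
  apply Finset.sum_subset hsub
  intro I _ hI
  rw [hF, mul_zero]
  intro h
  exact hI (Finset.mem_powersetCard.2 ⟨Finset.subset_univ _, h⟩)

/-- (E2) `E det W = n! e_n (w)`. -/
theorem integral_det_Wm (h : StdC γ) (w : κ → ℝ) :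
    ∫ ζ, (Wm w ζ).det.re ∂(Measure.pi (fun _ : κ => Measure.pi (fun _ : ι => γ))) =
      (Fintype.card ι).factorial * esy w (Fintype.card ι) := by
  simp_rw [Wm_eq]
  rw [integral_det_re (vec_one h) 0 w]
  simp_rw [det_pm_zero_one, Polynomial.coeff_X_pow]
  rw [sum_card_eq w (Fintype.card ι)
    (fun i => (i.factorial : ℝ) * ((if i = Fintype.card ι then (1 : ℂ) else 0)).re)]
  · simp; ring
  · intro i hi; simp [hi]

theorem integrable_det_Wm (h : StdC γ) (w : κ → ℝ) :
    Integrable (fun ζ => (Wm w ζ).det.re)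
      (Measure.pi (fun _ : κ => Measure.pi (fun _ : ι => γ))) := by
  simp_rw [Wm_eq]
  exact integrable_det_re (vec_one h).mom 0 w

theorem Wm_posSemidef (w : κ → ℝ) (hw : ∀ s, 0 ≤ w s) (ζ : κ → ι → ℂ) :
    (Wm w ζ).PosSemidef := by
  rw [Wm_eq]
  exact det_sum_posSemidef Matrix.PosSemidef.zero w hw univ ζ

theorem nsq_eq (ζ : κ → ι → ℂ) :
    ((∑ s, ∑ i, Complex.normSq (ζ s i) : ℝ) : ℂ) = ∑ s, ∑ l, ζ s l * star (ζ s l) := by
  push_cast
  apply Finset.sum_congr rfl
  intro s _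
  apply Finset.sum_congr rfl
  intro l _
  exact (Complex.mul_conj _).symm

/-- (E3) `E |ζ|² det W = n (k + 1) n! e_n (w)`. -/
theorem integral_nsq_det_Wm (h : StdC γ) (w : κ → ℝ) :
    ∫ ζ, (∑ s, ∑ i, Complex.normSq (ζ s i)) * (Wm w ζ).det.re
      ∂(Measure.pi (fun _ : κ => Measure.pi (fun _ : ι => γ))) =
      (Fintype.card ι : ℝ) * (Fintype.card κ + 1) *
        ((Fintype.card ι).factorial * esy w (Fintype.card ι)) := by
  have h1 := integral_q_det (κ := κ) (vec_one (ι := ι) h) (mom_nsq h)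
    (c₀ := (Fintype.card ι : ℂ)) (c₁ := (Fintype.card ι + 1 : ℂ)) (integral_nsq h)
    (fun a c => by
      have := integral_nsq_fS h (1 : Matrix ι ι ℂ) a c
      rwa [Matrix.conjTranspose_one, Matrix.one_mul] at this) 0 (fun s => (w s : ℂ))
  have h2 := congrArg Complex.re h1
  have hmom : Integrable (fun ζ : κ → ι → ℂ => (∑ s, ∑ l, ζ s l * star (ζ s l)) *
      det (0 + ∑ s, (w s : ℂ) • rk (fS (1 : Matrix ι ι ℂ)) (ζ s)))
      (Measure.pi (fun _ : κ => Measure.pi (fun _ : ι => γ))) := by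
    have hq : Mom (Measure.pi (fun _ : κ => Measure.pi (fun _ : ι => γ)))
        (fun ζ : κ → ι → ℂ => ∑ s, ∑ l, ζ s l * star (ζ s l)) :=
      Mom.sum _ fun s _ => (mom_nsq h).eval _ s
    have hd : Mom (Measure.pi (fun _ : κ => Measure.pi (fun _ : ι => γ)))
        (fun ζ : κ → ι → ℂ => det (0 + ∑ s, (w s : ℂ) • rk (fS (1 : Matrix ι ι ℂ)) (ζ s))) := by
      have e : ∀ ζ : κ → ι → ℂ, det (0 + ∑ s, (w s : ℂ) • rk (fS (1 : Matrix ι ι ℂ)) (ζ s)) =
          ∑ I : Finset κ, (∏ s ∈ I, (w s : ℂ)) * Dp I 0 (fun s => rk (fS 1) (ζ s)) := by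
        intro ζ
        rw [det_add_sum (fun s => rk (fS 1) (ζ s)) (rk_rank_one ζ) (fun s => (w s : ℂ)) univ 0,
          Finset.powerset_univ]
      simp_rw [e]
      exact Mom.sum _ fun I _ => (Mom.const _).mul (mom_Dp (vec_one h).mom 0 I)
    exact (hq.mul hd).integrable
  have h3 : (∫ ζ, (∑ s, ∑ l, ζ s l * star (ζ s l)) *
      det (0 + ∑ s, (w s : ℂ) • rk (fS (1 : Matrix ι ι ℂ)) (ζ s))
      ∂(Measure.pi (fun _ : κ => Measure.pi (fun _ : ι => γ)))).re =
      ∫ ζ, (∑ s, ∑ i, Complex.normSq (ζ s i)) * (Wm w ζ).det.re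
        ∂(Measure.pi (fun _ : κ => Measure.pi (fun _ : ι => γ))) := by
    have h4 := integral_re hmom
    have h5 : (fun ζ : κ → ι → ℂ => RCLike.re ((∑ s, ∑ l, ζ s l * star (ζ s l)) *
        det (0 + ∑ s, (w s : ℂ) • rk (fS (1 : Matrix ι ι ℂ)) (ζ s)))) =
        fun ζ => (∑ s, ∑ i, Complex.normSq (ζ s i)) * (Wm w ζ).det.re := by
      funext ζ
      rw [← nsq_eq, ← Wm_eq]
      exact Complex.re_ofReal_mul _ _
    rw [h5] at h4
    exact h4.symm
  rw [← h3]
  refine h2.trans ?_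
  have h6 : ∀ I : Finset κ, ((∏ s ∈ I, (w s : ℂ)) * (((Fintype.card ι + 1 : ℂ) * I.card +
      (Fintype.card ι : ℂ) * (Fintype.card κ - I.card)) * ((I.card.factorial : ℂ) *
        (det (pm (0 : Matrix ι ι ℂ) 1)).coeff I.card))).re = (∏ s ∈ I, w s) *
      ((((Fintype.card ι + 1 : ℝ) * I.card + (Fintype.card ι : ℝ) * (Fintype.card κ - I.card)) *
        ((I.card.factorial : ℝ) * (if I.card = Fintype.card ι then 1 else 0)))) := by
    intro I
    rw [re_prod_mul, det_pm_zero_one, Polynomial.coeff_X_pow]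
    congr 1
    have : (((Fintype.card ι + 1 : ℂ) * I.card + (Fintype.card ι : ℂ) *
        (Fintype.card κ - I.card)) * ((I.card.factorial : ℂ) *
        (if I.card = Fintype.card ι then 1 else 0))) =
        (((((Fintype.card ι + 1 : ℝ) * I.card + (Fintype.card ι : ℝ) *
          (Fintype.card κ - I.card)) * ((I.card.factorial : ℝ) *
          (if I.card = Fintype.card ι then 1 else 0))) : ℝ) : ℂ) := by
      split_ifs <;> push_cast <;> ring
    rw [this, Complex.ofReal_re]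
  rw [Complex.re_sum]
  simp_rw [h6]
  rw [sum_card_eq w (Fintype.card ι) (fun i => (((Fintype.card ι + 1 : ℝ) * i +
    (Fintype.card ι : ℝ) * (Fintype.card κ - i)) * ((i.factorial : ℝ) *
      (if i = Fintype.card ι then 1 else 0))))]
  · simp; ring
  · intro i hi; simp [hi]

/-- (E4) The error term. -/
theorem integral_err_le (h : StdC γ) (hS : ∀ i j, Mom ν (fun z => S z i j))
    (hch : ∀ x y : ℝ, ∫ z, ((x : ℂ) • (1 : Matrix ι ι ℂ) + (y : ℂ) • ((S z)ᴴ * S z)).det.re ∂ν =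
      δ * (x + y * D) ^ Fintype.card ι) {a c : ℝ} (ha : 0 ≤ a) (hc : 0 ≤ c)
    (w : κ → ℝ) (hw : ∀ s, 0 ≤ w s) (p : ℝ) {B : Set (κ → ι → ℂ)} (hB : MeasurableSet B)
    (BI : Finset κ → Set (κ → ι → ℂ))
    (hBI : ∀ I : Finset κ, I.card ≤ Fintype.card ι → MeasurableSet (BI I) ∧
      (∀ x y : κ → ι → ℂ, (∀ s, s ∉ I → x s = y s) → (x ∈ BI I ↔ y ∈ BI I)) ∧ B ⊆ BI I ∧
      (Measure.pi (fun _ : κ => Measure.pi (fun _ : ι => γ))).real (BI I) ≤ p) :
    ∫ z, ∫ ζ in B, (((S z)ᴴ * (Wm w ζ + (a : ℂ) • (1 : Matrix ι ι ℂ)) * S z +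
        (c : ℂ) • (1 : Matrix ι ι ℂ)).det.re)
        ∂(Measure.pi (fun _ : κ => Measure.pi (fun _ : ι => γ))) ∂ν ≤
      p * (δ * ∑ i ∈ range (Fintype.card ι + 1), esy w i *
        ((Fintype.card ι).descFactorial i * D ^ i * (c + a * D) ^ (Fintype.card ι - i))) := by
  set n := Fintype.card ι with hn
  have h1 : ∀ z, ∫ ζ in B, (((S z)ᴴ * (Wm w ζ + (a : ℂ) • (1 : Matrix ι ι ℂ)) * S z +
        (c : ℂ) • (1 : Matrix ι ι ℂ)).det.re)
        ∂(Measure.pi (fun _ : κ => Measure.pi (fun _ : ι => γ))) ≤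
      p * ∑ I : Finset κ, (∏ s ∈ I, w s) *
        ((I.card.factorial : ℝ) * ((det (pm (M0 a c (S z)) ((S z)ᴴ * S z))).coeff I.card).re) := by
    intro z
    simp_rw [form_eq]
    exact setIntegral_det_le (vec_fS h (S z)) (M0_posSemidef ha hc (S z)) w hw p hB BI hBI
  have h0 : ∀ z, 0 ≤ ∫ ζ in B, (((S z)ᴴ * (Wm w ζ + (a : ℂ) • (1 : Matrix ι ι ℂ)) * S z +
        (c : ℂ) • (1 : Matrix ι ι ℂ)).det.re)
        ∂(Measure.pi (fun _ : κ => Measure.pi (fun _ : ι => γ))) := by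
    intro z
    apply integral_nonneg
    intro ζ
    simp only [Pi.zero_apply]
    rw [form_eq]
    exact det_re_nonneg (M0_posSemidef ha hc (S z)) w hw ζ
  have hintI : ∀ I : Finset κ, Integrable (fun z => (∏ s ∈ I, w s) *
      ((I.card.factorial : ℝ) * ((det (pm (M0 a c (S z)) ((S z)ᴴ * S z))).coeff I.card).re)) ν :=
    fun I => ((integrable_coeff hS a c I.card).const_mul _).const_mul _
  have h2 : Integrable (fun z => p * ∑ I : Finset κ, (∏ s ∈ I, w s) *
      ((I.card.factorial : ℝ) *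
        ((det (pm (M0 a c (S z)) ((S z)ᴴ * S z))).coeff I.card).re)) ν :=
    (integrable_finsetSum _ fun I _ => hintI I).const_mul _
  refine le_trans (integral_mono_of_nonneg (Filter.Eventually.of_forall h0) h2
    (Filter.Eventually.of_forall h1)) (le_of_eq ?_)
  rw [integral_const_mul, integral_finsetSum _ fun I _ => hintI I]
  congr 1
  have h3 : ∀ I : Finset κ, ∫ z, (∏ s ∈ I, w s) * ((I.card.factorial : ℝ) *
      ((det (pm (M0 a c (S z)) ((S z)ᴴ * S z))).coeff I.card).re) ∂ν =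
      (∏ s ∈ I, w s) * (if I.card ≤ n then
        δ * (n.descFactorial I.card * D ^ I.card * (c + a * D) ^ (n - I.card)) else 0) := by
    intro I
    rw [integral_const_mul, integral_const_mul]
    congr 1
    by_cases hI : I.card ≤ n
    · rw [if_pos hI, integral_coeff hS hch a c hI, ← hn, Nat.descFactorial_eq_factorial_mul_choose]
      push_cast; ring
    · rw [if_neg hI]
      rw [not_le] at hI
      have h4 : ∀ z, ((det (pm (M0 a c (S z)) ((S z)ᴴ * S z))).coeff I.card).re = 0 := by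
        intro z
        rw [coeff_pm_eq_zero _ _ hI]; simp
      simp_rw [h4]
      simp
  simp_rw [h3]
  rw [sum_finset_eq w (fun i => if i ≤ n then
    δ * (n.descFactorial i * D ^ i * (c + a * D) ^ (n - i)) else 0), Finset.mul_sum]
  -- both sums are over `i ≤ min (n, k)`
  set F : ℕ → ℝ := fun i => esy w i * (if i ≤ n then
    δ * (n.descFactorial i * D ^ i * (c + a * D) ^ (n - i)) else 0) with hF
  have hL : ∑ i ∈ range (Fintype.card κ + 1), (∑ I ∈ powersetCard i (univ : Finset κ),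
      ∏ s ∈ I, w s) * (if i ≤ n then
        δ * (n.descFactorial i * D ^ i * (c + a * D) ^ (n - i)) else 0) =
      ∑ i ∈ range (Fintype.card κ + 1), F i := rfl
  have hR : ∑ i ∈ range (n + 1), δ * (esy w i *
      (n.descFactorial i * D ^ i * (c + a * D) ^ (n - i))) = ∑ i ∈ range (n + 1), F i := by
    apply Finset.sum_congr rfl
    intro i hi
    have : i ≤ n := Nat.lt_succ_iff.1 (Finset.mem_range.1 hi)
    simp only [hF, if_pos this]; ring
  rw [hL, hR]
  have hz1 : ∀ i, Fintype.card κ < i → F i = 0 := by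
    intro i hi
    have : esy w i = 0 := by
      rw [esy, Finset.powersetCard_eq_empty.2 (by simpa using hi), Finset.sum_empty]
    simp [hF, this]
  have hz2 : ∀ i, n < i → F i = 0 := by
    intro i hi
    simp [hF, not_le.2 hi]
  have hbig : ∀ N, ∑ i ∈ range (Fintype.card κ + 1 + N), F i =
      ∑ i ∈ range (Fintype.card κ + 1), F i := by
    intro N
    symm
    apply Finset.sum_subset (Finset.range_mono (by omega))
    intro i _ hi
    apply hz1
    rw [Finset.mem_range, not_lt] at hi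
    omega
  have hbig2 : ∀ N, ∑ i ∈ range (n + 1 + N), F i = ∑ i ∈ range (n + 1), F i := by
    intro N
    symm
    apply Finset.sum_subset (Finset.range_mono (by omega))
    intro i _ hi
    apply hz2
    rw [Finset.mem_range, not_lt] at hi
    omega
  rw [← hbig (n + 1), ← hbig2 (Fintype.card κ + 1)]
  congr 2
  omega

end Main

end Pool.H64.KB
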