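import Pool.Agent.H64.KB.ChernJet

/-!
# Polynomials of weight `m` that vanish to order `p` at a point

`VanGE p w P`: the polynomial `P` vanishes to order at least `p` at the point `w` (its Taylor
expansion at `w` has no term of degree `< p`).  The space of weighted homogeneous polynomials of
weight `m` that vanish to order `≥ p` at `w` has dimension at most `cnt wt m p`, the number of
monomials of weight `m` and ordinary degree `≥ p`.
-/

namespace Pool.H64.KB

open Finset MvPolynomial

/-- Translation `P (X) ↦ P (X + w)`. -/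
noncomputable def shift {σ : Type*} (w : σ → ℂ) : MvPolynomial σ ℂ →ₐ[ℂ] MvPolynomial σ ℂ :=
  aeval (fun i => X i + C (w i))

theorem shift_neg {σ : Type*} (w : σ → ℂ) (P : MvPolynomial σ ℂ) :
    shift (fun i => - w i) (shift w P) = P := by
  have : (shift (fun i => - w i)).comp (shift w) = AlgHom.id ℂ (MvPolynomial σ ℂ) := by
    apply MvPolynomial.algHom_ext
    intro i
    simp [shift]
  exact DFunLike.congr_fun this P

theorem totalDegree_shift_monomial_le {σ : Type*} (w : σ → ℂ) (d : σ →₀ ℕ) (c : ℂ) :
    (shift w (monomial d c)).totalDegree ≤ d.sum fun _ e => e := by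
  rw [shift, aeval_monomial]
  refine le_trans (totalDegree_mul _ _) ?_
  have h1 : (algebraMap ℂ (MvPolynomial σ ℂ) c).totalDegree = 0 := totalDegree_C c
  rw [h1, zero_add, Finsupp.prod, Finsupp.sum]
  refine le_trans (totalDegree_finsetProd _ _) ?_
  apply Finset.sum_le_sum
  intro i _
  refine le_trans (totalDegree_pow _ _) ?_
  have h2 : (X i + C (w i) : MvPolynomial σ ℂ).totalDegree ≤ 1 := by
    refine le_trans (totalDegree_add _ _) ?_
    rw [totalDegree_X, totalDegree_C]; simp
  calc d i * (X i + C (w i) : MvPolynomial σ ℂ).totalDegree ≤ d i * 1 :=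
        Nat.mul_le_mul_left _ h2
    _ = d i := mul_one _

theorem totalDegree_shift_le {σ : Type*} (w : σ → ℂ) (P : MvPolynomial σ ℂ) :
    (shift w P).totalDegree ≤ P.totalDegree := by
  conv_lhs => rw [P.as_sum, map_sum]
  apply totalDegree_finsetSum_le
  intro d hd
  exact le_trans (totalDegree_shift_monomial_le w d _) (le_totalDegree hd)

/-- `P` vanishes to order at least `p` at `w`. -/
def VanGE {σ : Type*} (p : ℕ) (w : σ → ℂ) (P : MvPolynomial σ ℂ) : Prop :=
  ∀ d : σ →₀ ℕ, (d.sum fun _ e => e) < p → (shift w P).coeff d = 0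

/-- A polynomial of degree `< p` that vanishes to order `≥ p` somewhere is zero. -/
theorem eq_zero_of_vanGE {σ : Type*} {p : ℕ} {w : σ → ℂ} {P : MvPolynomial σ ℂ}
    (h : VanGE p w P) (hd : P.totalDegree < p) : P = 0 := by
  have h1 : shift w P = 0 := by
    ext d
    rw [coeff_zero]
    by_contra hne
    have h2 : d ∈ (shift w P).support := mem_support_iff.2 hne
    have h3 := le_totalDegree h2
    have h4 := totalDegree_shift_le w P
    exact hne (h d (lt_of_le_of_lt (le_trans h3 h4) hd))
  rw [← shift_neg w P, h1, map_zero]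

/-- The space of polynomials of weight `m` vanishing to order `≥ p` at `w`. -/
theorem finrank_le_cnt {σ : Type*} [Fintype σ] [DecidableEq σ] (wt : σ → ℕ)
    (hwt : ∀ i, 1 ≤ wt i) (m p : ℕ) (w : σ → ℂ) (V : Submodule ℂ (MvPolynomial σ ℂ))
    (hV : ∀ P ∈ V, IsWeightedHomogeneous wt P m ∧ VanGE p w P) :
    Module.Finite ℂ V ∧ Module.finrank ℂ V ≤ cnt wt m p := by
  classical
  set S := (Fintype.piFinset (fun _ : σ => Finset.range (m + 1))).filter
    (fun a => (∑ i, wt i * a i = m) ∧ p ≤ ∑ i, a i) with hS
  let φ : V →ₗ[ℂ] (S → ℂ) :=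
    { toFun := fun P a => (P : MvPolynomial σ ℂ).coeff (Finsupp.equivFunOnFinite.symm a.1)
      map_add' := fun P Q => by funext a; simp
      map_smul' := fun c P => by funext a; simp }
  have hinj : Function.Injective φ := by
    rw [← LinearMap.ker_eq_bot, LinearMap.ker_eq_bot']
    rintro ⟨P, hP⟩ h0
    obtain ⟨hw, hv⟩ := hV P hP
    have hsupp : ∀ d ∈ P.support, (d.sum fun _ e => e) < p := by
      intro d hd
      by_contra hlt
      rw [not_lt] at hlt
      have e1 : Finsupp.weight wt d = m := hw (mem_support_iff.1 hd)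
      have e2 : ∑ i, wt i * d i = m := by
        rw [← e1, Finsupp.weight_apply, Finsupp.sum_fintype _ _ (by simp)]
        apply Finset.sum_congr rfl
        intro i _
        rw [smul_eq_mul, mul_comm]
      have e3 : p ≤ ∑ i, d i := by
        rwa [Finsupp.sum_fintype _ _ (by simp)] at hlt
      have e4 : (d : σ → ℕ) ∈ S := by
        rw [hS, mem_filter, Fintype.mem_piFinset]
        refine ⟨?_, e2, e3⟩
        intro i
        rw [Finset.mem_range, Nat.lt_succ_iff, ← e2]
        calc d i ≤ wt i * d i := Nat.le_mul_of_pos_left _ (hwt i)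
          _ ≤ _ := Finset.single_le_sum (f := fun i => wt i * d i)
              (fun _ _ => Nat.zero_le _) (mem_univ i)
      have e5 := congrFun h0 ⟨(d : σ → ℕ), e4⟩
      have e6 : Finsupp.equivFunOnFinite.symm (d : σ → ℕ) = d := by
        ext i; simp
      have e7 : P.coeff d = 0 := by
        have : φ ⟨P, hP⟩ ⟨(d : σ → ℕ), e4⟩ =
            P.coeff (Finsupp.equivFunOnFinite.symm (d : σ → ℕ)) := rfl
        rw [this, e6] at e5
        simpa using e5
      exact (mem_support_iff.1 hd) e7
    have hP0 : P = 0 := by
      rcases Nat.eq_zero_or_pos p with hp | hp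
      · subst hp
        have : P.support = ∅ := by
          rw [Finset.eq_empty_iff_forall_notMem]
          intro d hd
          exact absurd (hsupp d hd) (Nat.not_lt_zero _)
        exact MvPolynomial.support_eq_empty.1 this
      · apply eq_zero_of_vanGE hv
        rw [totalDegree, Finset.sup_lt_iff (by simpa using hp)]
        exact hsupp
    exact Subtype.ext hP0
  have hfin : Module.Finite ℂ V := Module.Finite.of_injective φ hinj
  refine ⟨hfin, ?_⟩
  have h1 := LinearMap.finrank_le_finrank_of_injective hinj
  rw [Module.finrank_fintype_fun_eq_card, Fintype.card_coe] at h1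
  exact h1

end Pool.H64.KB
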